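import Mathlib

open MeasureTheory Filter FourierTransform
open scoped ENNReal SchwartzMap

namespace Pool.Agent.Work.MP_dc5c84_pr

/-- A point process on `ℝ`, given by its points listed in nondecreasing order: `u ω j` is the
`j`-th point (`j ∈ ℤ`), points may coincide (multiplicity), and the configuration is locally
finite and unbounded in both directions. -/
structure IsPointProcess {Ω : Type*} [MeasurableSpace Ω] (u : Ω → ℤ → ℝ) : Prop where
  measurable : ∀ j, Measurable fun ω => u ω j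
  monotone : ∀ ω, Monotone (u ω)
  tendsto_atTop : ∀ ω, Tendsto (u ω) atTop atTop
  tendsto_atBot : ∀ ω, Tendsto (u ω) atBot atBot

/-- Number of points (with multiplicity) in `[L, L+1]`. -/
noncomputable def numPts {Ω : Type*} (u : Ω → ℤ → ℝ) (L : ℝ) (ω : Ω) : ℝ≥0∞ :=
  ((Set.encard {j : ℤ | u ω j ∈ Set.Icc L (L + 1)} : ℕ∞) : ℝ≥0∞)

/-- Uniform local moments: for each `n ≥ 1` there is `C < ∞` with `E (#_{[L,L+1]})^n ≤ C`
for all real `L`. -/
def HasULM {Ω : Type*} [MeasurableSpace Ω] (P : Measure Ω) (u : Ω → ℤ → ℝ) : Prop :=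
  ∀ n : ℕ, 1 ≤ n → ∃ C : ℝ≥0∞, C < ∞ ∧ ∀ L : ℝ, ∫⁻ ω, numPts u L ω ^ n ∂P ≤ C

/-- The `n`-level correlation measure: `∫ φ dρ_n = E ∑ φ(u_{j_1},…,u_{j_n})`, the sum over
distinct `j_1,…,j_n ∈ ℤ`. -/
noncomputable def corr {Ω : Type*} [MeasurableSpace Ω] (P : Measure Ω) (u : Ω → ℤ → ℝ) (n : ℕ) :
    Measure (EuclideanSpace ℝ (Fin n)) :=
  Measure.sum fun e : Fin n ↪ ℤ => P.map fun ω => WithLp.toLp 2 fun i => u ω (e i)

/-- `det [S(x_i - x_k)]` with `S(x) = sin(π x)/(π x)`, `S(0) = 1`. -/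
noncomputable def sineDet {n : ℕ} (x : EuclideanSpace ℝ (Fin n)) : ℝ :=
  Matrix.det (Matrix.of fun i k : Fin n => Real.sinc (Real.pi * (x i - x k)))

/-- The `n`-level correlation measure of the sine process. -/
noncomputable def sineCorr (n : ℕ) : Measure (EuclideanSpace ℝ (Fin n)) :=
  volume.withDensity fun x => ENNReal.ofReal (sineDet x)

/-- Two families of correlation measures agree at bandwidth `B`: for all `n ≥ 1` they integrate
every Schwartz function whose Fourier transform is supported in `[-B,B]^n` to the same value. -/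
def Mimic (B : ℝ) (ρ ρ' : ∀ n : ℕ, Measure (EuclideanSpace ℝ (Fin n))) : Prop :=
  ∀ n : ℕ, 1 ≤ n → ∀ η : 𝓢(EuclideanSpace ℝ (Fin n), ℂ),
    (∀ ξ : EuclideanSpace ℝ (Fin n), (∃ i, B < |ξ i|) → 𝓕 η ξ = 0) →
      ∫ x, η x ∂(ρ n) = ∫ x, η x ∂(ρ' n)

/-- Membership in the class `𝒯_B` of u.l.m. point processes mimicking the sine process at
bandwidth `B`. -/
structure InT {Ω : Type*} [MeasurableSpace Ω] (P : Measure Ω) (u : Ω → ℤ → ℝ) (B : ℝ) : Prop where
  prob : IsProbabilityMeasure P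
  pp : IsPointProcess u
  ulm : HasULM P u
  mimic : Mimic B (corr P u) sineCorr

/-- `λ = inf {ℓ : ∃ u ∈ 𝒯_1, a.s. |u_{j+1} - u_j| ≤ ℓ for all j}`, with `inf ∅ = +∞`. -/
noncomputable def lam.{v} : EReal :=
  sInf {l : EReal | ∃ r : ℝ, l = (r : EReal) ∧
    ∃ (Ω : Type v) (_ : MeasurableSpace Ω) (P : Measure Ω) (u : Ω → ℤ → ℝ),
      InT P u 1 ∧ ∀ᵐ ω ∂P, ∀ j : ℤ, |u ω (j + 1) - u ω j| ≤ r}

end Pool.Agent.Work.MP_dc5c84_pr
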