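import Mathlib

open MeasureTheory
open scoped Real

namespace Pool.Agent.Work.MP_dc5c84_pr

/-- the sine kernel profile -/
noncomputable def S (y : ℝ) : ℝ := Real.sinc (π * y)

theorem S_zero : S 0 = 1 := by simp [S]

/-- uniform measure on `[-1/2,1/2]` -/
noncomputable def nu : Measure ℝ := volume.restrict (Set.Ioc (-1 / 2) (1 / 2))

instance : IsProbabilityMeasure nu := ⟨by simp [nu]; norm_num⟩

theorem ae_nu : ∀ᵐ t ∂nu, |t| ≤ 1 / 2 := by
  unfold nu
  rw [ae_restrict_iff' measurableSet_Ioc]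
  filter_upwards with t ht
  rw [abs_le]
  constructor
  · have := ht.1; linarith
  · exact ht.2

theorem S_eq_integral (y : ℝ) :
    (S y : ℂ) = ∫ t, Complex.exp (2 * π * Complex.I * y * t) ∂nu := by
  have h1 : ∫ t, Complex.exp (2 * π * Complex.I * y * t) ∂nu
      = ∫ t in (-1 / 2 : ℝ)..(1 / 2), Complex.exp (2 * π * Complex.I * y * t) := by
    rw [intervalIntegral.integral_of_le (by norm_num)]
    rfl
  rw [h1]
  by_cases hy : y = 0
  · subst hy
    simp [S_zero]
    norm_num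
  have hc : (2 * π * y : ℝ) ≠ 0 := by positivity
  have h2 := intervalIntegral.integral_comp_mul_left (a := -1 / 2) (b := 1 / 2)
    (fun t : ℝ => Complex.exp (t * Complex.I)) hc
  have h3 : ∫ t in (-1 / 2 : ℝ)..(1 / 2), Complex.exp (2 * π * Complex.I * y * t)
      = ∫ t in (-1 / 2 : ℝ)..(1 / 2),
        (fun t : ℝ => Complex.exp (t * Complex.I)) (2 * π * y * t) := by
    congr 1
    ext t
    simp only
    congr 1
    push_cast
    ring
  rw [h3, h2]
  rw [show (2 * π * y * (-1 / 2) : ℝ) = -(π * y) by ring,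
    show (2 * π * y * (1 / 2) : ℝ) = π * y by ring, integral_exp_mul_I_eq_sinc]
  rw [S, Complex.real_smul]
  have hpi : (π : ℂ) ≠ 0 := by exact_mod_cast Real.pi_ne_zero
  have hy' : (y : ℂ) ≠ 0 := by exact_mod_cast hy
  push_cast
  field_simp

/-- the `n × n` sine-kernel determinant -/
noncomputable def sdet {n : ℕ} (x : Fin n → ℝ) : ℝ :=
  Matrix.det (Matrix.of fun i k : Fin n => S (x i - x k))

section

variable {X : Type*} [MeasurableSpace X] {μ : Measure X} [SigmaFinite μ]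

/-- transform of `F` along `p` -/
noncomputable def tr (μ : Measure X) (p : X → ℝ) (F : X → ℂ) (s : ℝ) : ℂ :=
  ∫ x, F x * Complex.exp (2 * π * Complex.I * p x * s) ∂μ

theorem prodS {n : ℕ} (σ : Equiv.Perm (Fin n)) (x : Fin n → ℝ) :
    ((∏ i, S (x (σ i) - x i) : ℝ) : ℂ)
      = ∫ t : Fin n → ℝ, ∏ i, Complex.exp (2 * π * Complex.I * x i * (t (σ⁻¹ i) - t i))
        ∂(Measure.pi fun _ => nu) := by
  push_cast
  have h1 : ∏ i, (S (x (σ i) - x i) : ℂ) = ∏ i, ∫ t, Complex.exp (2 * π * Complex.I *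
      (x (σ i) - x i : ℝ) * t) ∂nu := by
    apply Finset.prod_congr rfl
    intro i _
    exact S_eq_integral _
  rw [h1, ← integral_fintype_prod_eq_prod (μ := fun _ : Fin n => nu) (f := fun i (t : ℝ) =>
    Complex.exp (2 * π * Complex.I * (x (σ i) - x i : ℝ) * t))]
  congr 1
  ext t
  rw [← Complex.exp_sum, ← Complex.exp_sum]
  congr 1
  have h2 : ∑ i, 2 * π * Complex.I * ((x (σ i) - x i : ℝ) : ℂ) * (t i : ℂ)
      = ∑ i, 2 * π * Complex.I * (x (σ i) : ℂ) * (t i : ℂ)
        - ∑ i, 2 * π * Complex.I * (x i : ℂ) * (t i : ℂ) := by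
    rw [← Finset.sum_sub_distrib]
    apply Finset.sum_congr rfl
    intro i _
    push_cast
    ring
  have h3 : ∑ i, 2 * π * Complex.I * (x i : ℂ) * ((t (σ⁻¹ i) : ℂ) - (t i : ℂ))
      = ∑ i, 2 * π * Complex.I * (x i : ℂ) * (t (σ⁻¹ i) : ℂ)
        - ∑ i, 2 * π * Complex.I * (x i : ℂ) * (t i : ℂ) := by
    rw [← Finset.sum_sub_distrib]
    apply Finset.sum_congr rfl
    intro i _
    ring
  rw [h2, h3]
  congr 1
  rw [← Equiv.sum_comp σ (fun i => 2 * π * Complex.I * (x i : ℂ) * (t (σ⁻¹ i) : ℂ))]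
  simp

theorem fubini_det (p : X → ℝ) (hp : Measurable p) (F : X → ℂ) (hF : Integrable F μ) (n : ℕ) :
    ∫ x : Fin n → X, (∏ i, F (x i)) * (sdet (fun i => p (x i)) : ℂ) ∂(Measure.pi fun _ => μ)
      = ∑ σ : Equiv.Perm (Fin n), ((Equiv.Perm.sign σ : ℤ) : ℂ) *
        ∫ t : Fin n → ℝ, ∏ i, tr μ p F (t (σ⁻¹ i) - t i) ∂(Measure.pi fun _ => nu) := by
  have hFn : Integrable (fun x : Fin n → X => ∏ i, F (x i)) (Measure.pi fun _ => μ) :=
    Integrable.fintype_prod (fun _ => hF)
  have h1 : ∀ x : Fin n → X, (∏ i, F (x i)) * (sdet (fun i => p (x i)) : ℂ)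
      = ∑ σ : Equiv.Perm (Fin n), ((Equiv.Perm.sign σ : ℤ) : ℂ) *
        ∫ t : Fin n → ℝ, (∏ i, F (x i)) * ∏ i, Complex.exp (2 * π * Complex.I * p (x i) *
          (t (σ⁻¹ i) - t i)) ∂(Measure.pi fun _ => nu) := by
    intro x
    rw [sdet, Matrix.det_apply']
    push_cast
    rw [Finset.mul_sum]
    apply Finset.sum_congr rfl
    intro σ _
    have := prodS σ (fun i => p (x i))
    push_cast at this
    simp only [Matrix.of_apply]
    rw [this, integral_const_mul]
    ring
  simp_rw [h1]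
  have hint : ∀ σ : Equiv.Perm (Fin n), Integrable (fun z : (Fin n → X) × (Fin n → ℝ) =>
      (∏ i, F (z.1 i)) * ∏ i, Complex.exp (2 * π * Complex.I * p (z.1 i) *
          (z.2 (σ⁻¹ i) - z.2 i)))
      ((Measure.pi fun _ => μ).prod (Measure.pi fun _ => nu)) := by
    intro σ
    have h2 : Integrable (fun z : (Fin n → X) × (Fin n → ℝ) => ∏ i, F (z.1 i))
      ((Measure.pi fun _ => μ).prod (Measure.pi fun _ => nu)) := hFn.comp_fst _
    apply h2.mul_bdd (c := 1)
    · apply Measurable.aestronglyMeasurable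
      fun_prop
    · filter_upwards with z
      rw [norm_prod]
      apply Finset.prod_le_one
      · intro i _; positivity
      · intro i _
        rw [show 2 * π * Complex.I * (p (z.1 i) : ℂ) * ((z.2 (σ⁻¹ i) : ℂ) - (z.2 i : ℂ))
          = ((2 * π * p (z.1 i) * (z.2 (σ⁻¹ i) - z.2 i) : ℝ) : ℂ) * Complex.I by push_cast; ring,
          Complex.norm_exp_ofReal_mul_I]
  rw [integral_finset_sum]
  · apply Finset.sum_congr rfl
    intro σ _
    rw [integral_const_mul]
    congr 1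
    rw [integral_integral_swap (hint σ)]
    congr 1
    ext t
    rw [show (∏ i, tr μ p F (t (σ⁻¹ i) - t i)) = ∏ i, ∫ x, (fun (i : Fin n) (x : X) =>
      F x * Complex.exp (2 * π * Complex.I * p x * (t (σ⁻¹ i) - t i : ℝ))) i x ∂μ from rfl]
    rw [← integral_fintype_prod_eq_prod (μ := fun _ : Fin n => μ)]
    congr 1
    ext x
    rw [← Finset.prod_mul_distrib]
    apply Finset.prod_congr rfl
    intro i _
    push_cast
    rfl
  · intro σ _
    apply Integrable.const_mul
    exact (hint σ).integral_prod_left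

end

end Pool.Agent.Work.MP_dc5c84_pr
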