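import Mathlib
import Pool.Agent.Work.MP_dc5c84_pr.Fubini

open MeasureTheory Matrix
open scoped Real

namespace Pool.Agent.Work.MP_dc5c84_pr

theorem S_eq_cos (y : ℝ) : S y = ∫ t, Real.cos (2 * π * y * t) ∂nu := by
  have h := congrArg Complex.re (S_eq_integral y)
  rw [Complex.ofReal_re] at h
  rw [h]
  have hint : Integrable (fun t : ℝ => Complex.exp (2 * π * Complex.I * y * t)) nu := by
    apply Integrable.of_bound (C := 1)
    · exact (by fun_prop : Continuous fun t : ℝ =>
        Complex.exp (2 * π * Complex.I * y * t)).aestronglyMeasurable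
    · filter_upwards with t
      rw [show 2 * π * Complex.I * (y : ℂ) * (t : ℂ)
          = ((2 * π * y * t : ℝ) : ℂ) * Complex.I by push_cast; ring,
          Complex.norm_exp_ofReal_mul_I]
  have h2 := (Complex.reCLM.integral_comp_comm hint).symm
  simp only [Complex.reCLM_apply] at h2
  rw [h2]
  congr 1
  ext t
  rw [show 2 * π * Complex.I * (y : ℂ) * (t : ℂ)
          = ((2 * π * y * t : ℝ) : ℂ) * Complex.I by push_cast; ring,
          Complex.exp_ofReal_mul_I_re]

variable {ι : Type*} [Fintype ι]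

theorem integrable_cos (y : ℝ) : Integrable (fun t => Real.cos (2 * π * y * t)) nu := by
  apply Integrable.of_bound (C := 1)
  · exact (by fun_prop : Continuous fun t : ℝ => Real.cos (2 * π * y * t)).aestronglyMeasurable
  · filter_upwards with t
    rw [Real.norm_eq_abs]; exact Real.abs_cos_le_one _

/-- the integrand of the quadratic form -/
noncomputable def qf (x : ι → ℝ) (v : ι → ℝ) (t : ℝ) : ℝ :=
  (∑ i, v i * Real.cos (2 * π * x i * t)) ^ 2 + (∑ i, v i * Real.sin (2 * π * x i * t)) ^ 2

theorem quad_form (x : ι → ℝ) (v : ι → ℝ) :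
    ∑ i, ∑ k, v i * v k * S (x i - x k) = ∫ t, qf x v t ∂nu := by
  have h1 : ∀ i k, v i * v k * S (x i - x k)
      = ∫ t, v i * v k * Real.cos (2 * π * (x i - x k) * t) ∂nu := by
    intro i k
    rw [S_eq_cos, integral_const_mul]
  simp_rw [h1]
  have h2 : ∀ i, ∑ k, ∫ t, v i * v k * Real.cos (2 * π * (x i - x k) * t) ∂nu
      = ∫ t, ∑ k, v i * v k * Real.cos (2 * π * (x i - x k) * t) ∂nu := by
    intro i
    rw [integral_finsetSum]
    intro k _
    exact (integrable_cos _).const_mul _
  simp_rw [h2]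
  rw [← integral_finsetSum]
  · congr 1
    ext t
    unfold qf
    rw [sq, sq, Finset.sum_mul_sum, Finset.sum_mul_sum, ← Finset.sum_add_distrib]
    apply Finset.sum_congr rfl
    intro i _
    rw [← Finset.sum_add_distrib]
    apply Finset.sum_congr rfl
    intro k _
    rw [show 2 * π * (x i - x k) * t = 2 * π * x i * t - 2 * π * x k * t by ring, Real.cos_sub]
    ring
  · intro i _
    apply integrable_finsetSum
    intro k _
    exact (integrable_cos _).const_mul _

/-- the sine-kernel matrix at points `x` -/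
noncomputable def SM (x : ι → ℝ) : Matrix ι ι ℝ := Matrix.of fun i k => S (x i - x k)

theorem S_neg (y : ℝ) : S (-y) = S y := by
  unfold S
  rw [show π * -y = -(π * y) by ring, Real.sinc_neg]

omit [Fintype ι] in
theorem SM_herm (x : ι → ℝ) : (SM x).IsHermitian := by
  ext i k
  simp only [conjTranspose_apply, SM, of_apply, star_trivial]
  rw [← S_neg]
  congr 1
  ring

theorem SM_quad (x v : ι → ℝ) : star v ⬝ᵥ (SM x *ᵥ v) = ∫ t, qf x v t ∂nu := by
  rw [← quad_form]
  simp only [dotProduct, mulVec, star_trivial, SM, of_apply, Finset.mul_sum]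
  apply Finset.sum_congr rfl
  intro i _
  apply Finset.sum_congr rfl
  intro k _
  ring

theorem qf_nonneg (x v : ι → ℝ) (t : ℝ) : 0 ≤ qf x v t := by
  unfold qf; positivity

theorem SM_psd (x : ι → ℝ) : (SM x).PosSemidef := by
  apply PosSemidef.of_dotProduct_mulVec_nonneg (SM_herm x)
  intro v
  rw [SM_quad]
  exact integral_nonneg (qf_nonneg x v)

theorem det_SM_nonneg [DecidableEq ι] (x : ι → ℝ) : 0 ≤ (SM x).det := (SM_psd x).det_nonneg

theorem det_SM_le_one [DecidableEq ι] (x : ι → ℝ) : (SM x).det ≤ 1 := by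
  rcases isEmpty_or_nonempty ι with h | h
  · simp
  have hps := SM_psd x
  have hdet := hps.1.det_eq_prod_eigenvalues
  have htr := hps.1.trace_eq_sum_eigenvalues
  simp only [RCLike.ofReal_real_eq_id, id_eq] at hdet htr
  have htr1 : (SM x).trace = Fintype.card ι := by
    simp [Matrix.trace, SM, S_zero]
  have hN : (0 : ℝ) < Fintype.card ι := by exact_mod_cast Fintype.card_pos
  have h1 := Real.geom_mean_le_arith_mean_weighted Finset.univ
    (fun _ : ι => 1 / (Fintype.card ι : ℝ)) hps.1.eigenvalues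
    (fun _ _ => by positivity) (by simp) (fun i _ => hps.eigenvalues_nonneg i)
  rw [← Finset.mul_sum, ← htr, htr1] at h1
  rw [one_div, inv_mul_cancel₀ hN.ne', Real.finset_prod_rpow _ _
    (fun i _ => hps.eigenvalues_nonneg i), ← hdet] at h1
  have h2 : (SM x).det ≤ 1 := by
    by_contra hlt
    push Not at hlt
    have := Real.one_lt_rpow hlt (z := (Fintype.card ι : ℝ)⁻¹) (by positivity)
    linarith
  exact h2

theorem sdet_eq {n : ℕ} (x : Fin n → ℝ) : sdet x = (SM x).det := rfl

theorem abs_sdet_le {n : ℕ} (x : Fin n → ℝ) : |sdet x| ≤ 1 := by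
  rw [sdet_eq, abs_of_nonneg (det_SM_nonneg x)]
  exact det_SM_le_one x

theorem sdet_nonneg {n : ℕ} (x : Fin n → ℝ) : 0 ≤ sdet x := det_SM_nonneg x

end Pool.Agent.Work.MP_dc5c84_pr
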