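import Mathlib
import Pool.Agent.Work.MP_dc5c84_pr.Kernel

open MeasureTheory Matrix
open scoped Real

namespace Pool.Agent.Work.MP_dc5c84_pr

/-- half-lattice kernel matrix on a finset of ℤ -/
noncomputable def KF (F : Finset ℤ) : Matrix F F ℝ :=
  (1 / 2 : ℝ) • SM (fun i : F => ((i : ℤ) : ℝ) / 2)

theorem qf_zero_infinite (F : Finset ℤ) (v : F → ℝ) (T : Set ℝ) (hT : T.Infinite)
    (hT2 : ∀ t ∈ T, |t| ≤ 1 / 2)
    (h : ∀ t ∈ T, qf (fun i : F => ((i : ℤ) : ℝ) / 2) v t = 0) : v = 0 := by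
  classical
  obtain ⟨m, hm⟩ : ∃ m : ℤ, ∀ k ∈ F, m ≤ k := by
    obtain ⟨m, hm⟩ := F.bddBelow
    exact ⟨m, fun k hk => hm hk⟩
  let p : Polynomial ℂ := ∑ k : F, Polynomial.C (v k : ℂ) * Polynomial.X ^ ((k : ℤ) - m).toNat
  have hroot : ∀ t ∈ T, p.IsRoot (Complex.exp (((π * t : ℝ) : ℂ) * Complex.I)) := by
    intro t ht
    have h0 := h t ht
    unfold qf at h0
    have hc : ∑ i : F, v i * Real.cos (2 * π * (((i : ℤ) : ℝ) / 2) * t) = 0 := by
      nlinarith [sq_nonneg (∑ i : F, v i * Real.cos (2 * π * (((i : ℤ) : ℝ) / 2) * t)),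
        sq_nonneg (∑ i : F, v i * Real.sin (2 * π * (((i : ℤ) : ℝ) / 2) * t))]
    have hs : ∑ i : F, v i * Real.sin (2 * π * (((i : ℤ) : ℝ) / 2) * t) = 0 := by
      nlinarith [sq_nonneg (∑ i : F, v i * Real.cos (2 * π * (((i : ℤ) : ℝ) / 2) * t)),
        sq_nonneg (∑ i : F, v i * Real.sin (2 * π * (((i : ℤ) : ℝ) / 2) * t))]
    set z := Complex.exp (((π * t : ℝ) : ℂ) * Complex.I) with hz
    have hz0 : z ≠ 0 := Complex.exp_ne_zero _
    have hzk : ∀ k : ℤ, z ^ k = (Real.cos (2 * π * ((k : ℝ) / 2) * t) : ℂ)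
        + (Real.sin (2 * π * ((k : ℝ) / 2) * t) : ℂ) * Complex.I := by
      intro k
      rw [hz, ← Complex.exp_int_mul]
      rw [show (k : ℂ) * (((π * t : ℝ) : ℂ) * Complex.I)
        = ((2 * π * ((k : ℝ) / 2) * t : ℝ) : ℂ) * Complex.I by push_cast; ring]
      rw [Complex.exp_mul_I]
      push_cast
      rfl
    have hsum : ∑ k : F, (v k : ℂ) * z ^ (k : ℤ) = 0 := by
      have e1 : ∑ k : F, (v k : ℂ) * z ^ (k : ℤ)
        = ((∑ i : F, v i * Real.cos (2 * π * (((i : ℤ) : ℝ) / 2) * t) : ℝ) : ℂ)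
          + ((∑ i : F, v i * Real.sin (2 * π * (((i : ℤ) : ℝ) / 2) * t) : ℝ) : ℂ)
            * Complex.I := by
        push_cast
        rw [Finset.sum_mul, ← Finset.sum_add_distrib]
        apply Finset.sum_congr rfl
        intro k _
        rw [hzk]
        push_cast
        ring
      rw [e1, hc, hs]
      simp
    rw [Polynomial.IsRoot.def, Polynomial.eval_finset_sum]
    have e2 : ∀ k : F, Polynomial.eval z (Polynomial.C (v k : ℂ) *
        Polynomial.X ^ ((k : ℤ) - m).toNat) = z ^ (-m) * ((v k : ℂ) * z ^ (k : ℤ)) := by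
      intro k
      rw [Polynomial.eval_mul, Polynomial.eval_C, Polynomial.eval_pow, Polynomial.eval_X]
      have hnn : (0 : ℤ) ≤ (k : ℤ) - m := by linarith [hm k k.2]
      rw [← zpow_natCast, Int.toNat_of_nonneg hnn, sub_eq_neg_add, zpow_add₀ hz0]
      ring
    rw [Finset.sum_congr rfl (fun k _ => e2 k), ← Finset.mul_sum, hsum, mul_zero]
  have hinj : Set.InjOn (fun t : ℝ => Complex.exp (((π * t : ℝ) : ℂ) * Complex.I)) T := by
    intro s hs t ht hst
    simp only at hst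
    rw [Complex.exp_eq_exp_iff_exists_int] at hst
    obtain ⟨n, hn⟩ := hst
    have hn' : π * s = π * t + n * (2 * π) := by
      have h1 : ((π * s : ℝ) : ℂ) * Complex.I
        = ((π * t + n * (2 * π) : ℝ) : ℂ) * Complex.I := by
        rw [hn]; push_cast; ring
      have h2 := mul_right_cancel₀ Complex.I_ne_zero h1
      exact Complex.ofReal_injective h2
    have hpi := Real.pi_pos
    have h3 : s = t + 2 * n := by
      have : π * s = π * (t + 2 * n) := by rw [hn']; ring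
      exact mul_left_cancel₀ hpi.ne' this
    have h4 : |(n : ℝ)| < 1 := by
      have e : (n : ℝ) = (s - t) / 2 := by linarith
      rw [e, abs_div, abs_two]
      have := abs_sub s t
      have := hT2 s hs
      have := hT2 t ht
      have h5 : |s - t| ≤ |s| + |t| := abs_sub s t
      linarith
    have h5 : n = 0 := by
      have : |n| < 1 := by exact_mod_cast h4
      exact Int.abs_lt_one_iff.mp this
    rw [h3, h5]; simp
  have hp : p = 0 := by
    apply Polynomial.eq_zero_of_infinite_isRoot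
    apply Set.Infinite.mono _ (hT.image hinj)
    rintro _ ⟨t, ht, rfl⟩
    exact hroot t ht
  funext k
  have hcoef : p.coeff ((k : ℤ) - m).toNat = (v k : ℂ) := by
    simp only [p, Polynomial.finset_sum_coeff, Polynomial.coeff_C_mul, Polynomial.coeff_X_pow]
    rw [Finset.sum_eq_single k]
    · simp
    · intro b _ hbk
      have h1 : (0 : ℤ) ≤ (k : ℤ) - m := by linarith [hm k k.2]
      have h2 : (0 : ℤ) ≤ (b : ℤ) - m := by linarith [hm b b.2]
      have hne : ((k : ℤ) - m).toNat ≠ ((b : ℤ) - m).toNat := by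
        intro heq
        have h3 := congrArg (fun x : ℕ => (x : ℤ)) heq
        simp only [Int.toNat_of_nonneg h1, Int.toNat_of_nonneg h2] at h3
        apply hbk
        apply Subtype.ext
        linarith
      simp [hne]
    · intro hk; exact absurd (Finset.mem_univ k) hk
  rw [hp] at hcoef
  simp only [Polynomial.coeff_zero] at hcoef
  simpa using hcoef.symm

theorem KF_posDef (F : Finset ℤ) : (KF F).PosDef := by
  unfold KF
  apply PosDef.smul _ (by norm_num : (0 : ℝ) < 1 / 2)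
  apply PosDef.of_dotProduct_mulVec_pos (SM_herm _)
  intro v hv
  rw [SM_quad]
  rw [integral_pos_iff_support_of_nonneg (qf_nonneg _ v)]
  · rw [pos_iff_ne_zero]
    intro h0
    apply hv
    have hae : ∀ᵐ t ∂nu, qf (fun i : F => ((i : ℤ) : ℝ) / 2) v t = 0 := by
      rw [ae_iff]
      exact h0
    have hae2 : ∀ᵐ t ∂nu, qf (fun i : F => ((i : ℤ) : ℝ) / 2) v t = 0 ∧ |t| ≤ 1 / 2 :=
      hae.and ae_nu
    apply qf_zero_infinite F v
      {t | qf (fun i : F => ((i : ℤ) : ℝ) / 2) v t = 0 ∧ |t| ≤ 1 / 2} _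
      (fun t ht => ht.2) (fun t ht => ht.1)
    intro hfin
    have h1 : nu {t | qf (fun i : F => ((i : ℤ) : ℝ) / 2) v t = 0 ∧ |t| ≤ 1 / 2} = 0 := by
      have : volume {t | qf (fun i : F => ((i : ℤ) : ℝ) / 2) v t = 0 ∧ |t| ≤ 1 / 2} = 0 :=
        hfin.measure_zero _
      exact le_antisymm ((Measure.restrict_apply_le _ _).trans this.le) bot_le
    have h2 : nu {t | qf (fun i : F => ((i : ℤ) : ℝ) / 2) v t = 0 ∧ |t| ≤ 1 / 2}ᶜ = 0 := hae2
    have h3 : nu Set.univ ≤ 0 := by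
      rw [← Set.union_compl_self {t | qf (fun i : F => ((i : ℤ) : ℝ) / 2) v t = 0 ∧ |t| ≤ 1 / 2}]
      refine (measure_union_le _ _).trans ?_
      rw [h1, h2]
      simp
    simp at h3
  · have hcont : Continuous (qf (fun i : F => ((i : ℤ) : ℝ) / 2) v) := by
      unfold qf; fun_prop
    unfold nu
    exact (hcont.integrableOn_Icc (a := -1 / 2) (b := 1 / 2)).mono_set Set.Ioc_subset_Icc_self

theorem one_sub_KF (F : Finset ℤ) :
    1 - KF F = Matrix.diagonal (fun i : F => ((-1 : ℝ)) ^ (i : ℤ)) * KF F *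
      (Matrix.diagonal (fun i : F => ((-1 : ℝ)) ^ (i : ℤ)))ᴴ := by
  ext i j
  have hd : (Matrix.diagonal (fun i : F => ((-1 : ℝ)) ^ (i : ℤ)))ᴴ
    = Matrix.diagonal (fun i : F => ((-1 : ℝ)) ^ (i : ℤ)) := by
    rw [Matrix.diagonal_conjTranspose]; simp
  rw [hd, Matrix.mul_diagonal, Matrix.diagonal_mul, Matrix.sub_apply]
  simp only [KF, Matrix.smul_apply, SM, of_apply, smul_eq_mul]
  by_cases hij : i = j
  · subst hij
    simp only [Matrix.one_apply_eq, sub_self, S_zero]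
    have : ((-1 : ℝ)) ^ (i : ℤ) * ((-1 : ℝ)) ^ (i : ℤ) = 1 := by
      rw [← zpow_add₀ (by norm_num)]
      exact Even.neg_one_zpow ⟨_, rfl⟩
    linear_combination (-1 / 2) * this
  · rw [Matrix.one_apply_ne hij]
    have hij' : (i : ℤ) ≠ (j : ℤ) := fun h => hij (Subtype.ext h)
    have hprod : ((-1 : ℝ)) ^ (i : ℤ) * ((-1 : ℝ)) ^ (j : ℤ) = ((-1 : ℝ)) ^ ((i : ℤ) + (j : ℤ)) := by
      rw [← zpow_add₀ (by norm_num)]
    rcases Int.even_or_odd ((i : ℤ) - (j : ℤ)) with he | ho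
    · obtain ⟨r, hr⟩ := he
      have hr0 : r ≠ 0 := by
        intro h0; rw [h0] at hr; apply hij'; linarith
      have hS : S (((i : ℤ) : ℝ) / 2 - ((j : ℤ) : ℝ) / 2) = 0 := by
        have e : ((i : ℤ) : ℝ) / 2 - ((j : ℤ) : ℝ) / 2 = (r : ℝ) := by
          have : (((i : ℤ) : ℝ) - ((j : ℤ) : ℝ)) = r + r := by exact_mod_cast hr
          linarith
        rw [e, S, Real.sinc_of_ne_zero]
        · rw [mul_comm, Real.sin_int_mul_pi]; simp
        · have : (r : ℝ) ≠ 0 := by exact_mod_cast hr0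
          positivity
      rw [hS]; ring
    · have hodd : Odd ((i : ℤ) + (j : ℤ)) := by
        obtain ⟨r, hr⟩ := ho
        exact ⟨r + j, by linarith⟩
      have : ((-1 : ℝ)) ^ ((i : ℤ) + (j : ℤ)) = -1 := hodd.neg_one_zpow
      rw [this] at hprod
      linear_combination (-1 / 2) * S (((i : ℤ) : ℝ) / 2 - ((j : ℤ) : ℝ) / 2) * hprod

theorem one_sub_KF_posDef (F : Finset ℤ) : (1 - KF F).PosDef := by
  rw [one_sub_KF]
  apply (KF_posDef F).mul_mul_conjTranspose_same
  have hu : IsUnit (Matrix.diagonal (fun i : F => ((-1 : ℝ)) ^ (i : ℤ))) := by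
    rw [Matrix.isUnit_iff_isUnit_det, Matrix.det_diagonal]
    rw [isUnit_iff_ne_zero, Finset.prod_ne_zero_iff]
    intro i _
    positivity
  exact Matrix.vecMul_injective_of_isUnit hu

/-- `det (1 - H K)` -/
noncomputable def DD (F : Finset ℤ) (h : ℤ → ℝ) : ℝ :=
  Matrix.det (1 - Matrix.diagonal (fun i : F => h i) * KF F)

theorem DD_nonneg (F : Finset ℤ) (h : ℤ → ℝ) (h1 : ∀ i, h i ≤ 1) : 0 ≤ DD F h := by
  have hK := KF_posDef F
  have hKu : IsUnit (KF F).det := isUnit_iff_ne_zero.mpr hK.det_pos.ne'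
  have hP : (KF F - KF F * KF F).PosSemidef := by
    have e : KF F - KF F * KF F = (KF F)ᴴ * (1 - KF F) * KF F + (1 - KF F)ᴴ * KF F * (1 - KF F) := by
      rw [hK.isHermitian.eq, (one_sub_KF_posDef F).isHermitian.eq]
      noncomm_ring
    rw [e]
    exact ((one_sub_KF_posDef F).posSemidef.conjTranspose_mul_mul_same _).add
      (hK.posSemidef.conjTranspose_mul_mul_same _)
  have hQ : ((KF F)⁻¹ - 1).PosSemidef := by
    have e : (KF F)⁻¹ - 1 = ((KF F)⁻¹)ᴴ * (KF F - KF F * KF F) * (KF F)⁻¹ := by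
      rw [hK.inv.isHermitian.eq, Matrix.mul_sub, Matrix.sub_mul, Matrix.nonsing_inv_mul _ hKu,
        ← Matrix.mul_assoc, Matrix.nonsing_inv_mul _ hKu]
      simp [Matrix.mul_nonsing_inv _ hKu]
    rw [e]
    exact hP.conjTranspose_mul_mul_same _
  have hR : ((KF F)⁻¹ - Matrix.diagonal (fun i : F => h i)).PosSemidef := by
    have e : (KF F)⁻¹ - Matrix.diagonal (fun i : F => h i)
      = ((KF F)⁻¹ - 1) + Matrix.diagonal (fun i : F => 1 - h i) := by
      rw [← Matrix.diagonal_one, ← Matrix.diagonal_sub]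
      abel
    rw [e]
    apply hQ.add
    apply PosSemidef.diagonal
    intro i
    simpa using h1 i
  have e : 1 - Matrix.diagonal (fun i : F => h i) * KF F
      = ((KF F)⁻¹ - Matrix.diagonal (fun i : F => h i)) * KF F := by
    rw [Matrix.sub_mul, Matrix.nonsing_inv_mul _ hKu]
  rw [DD, e, Matrix.det_mul]
  exact mul_nonneg hR.det_nonneg hK.det_pos.le

end Pool.Agent.Work.MP_dc5c84_pr
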