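import Mathlib
import Pool.Agent.Work.MP_dc5c84_pr.HalfLattice

open MeasureTheory Matrix
open scoped Real

namespace Pool.Agent.Work.MP_dc5c84_pr

theorem DD_update (F : Finset ℤ) (h : ℤ → ℝ) (x : ℤ) (hx : x ∈ F) (a b θ : ℝ) :
    DD F (Function.update h x ((1 - θ) * a + θ * b))
      = (1 - θ) * DD F (Function.update h x a) + θ * DD F (Function.update h x b) := by
  classical
  set x' : F := ⟨x, hx⟩ with hx'
  have hrow : ∀ c : ℝ, (1 - Matrix.diagonal (fun i : F => (Function.update h x c) i) * KF F)
      = Matrix.updateRow (1 - Matrix.diagonal (fun i : F => h i) * KF F) x'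
        ((1 : Matrix F F ℝ) x' - c • (KF F) x') := by
    intro c
    ext i j
    by_cases hi : i = x'
    · subst hi
      simp only [Matrix.updateRow_self, Matrix.sub_apply, Matrix.diagonal_mul, Pi.sub_apply,
        Pi.smul_apply, smul_eq_mul]
      simp [hx']
    · rw [Matrix.updateRow_ne hi]
      have hne : (i : ℤ) ≠ x := fun h => hi (Subtype.ext h)
      simp only [Matrix.sub_apply, Matrix.diagonal_mul]
      rw [Function.update_of_ne hne]
  unfold DD
  rw [hrow, hrow, hrow]
  have e : ((1 : Matrix F F ℝ) x' - ((1 - θ) * a + θ * b) • (KF F) x')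
      = (1 - θ) • ((1 : Matrix F F ℝ) x' - a • (KF F) x')
        + θ • ((1 : Matrix F F ℝ) x' - b • (KF F) x') := by
    ext j
    simp only [Pi.sub_apply, Pi.smul_apply, Pi.add_apply, smul_eq_mul]
    ring
  rw [e, Matrix.det_updateRow_add, Matrix.det_updateRow_smul, Matrix.det_updateRow_smul]

/-- modification of `h` on `T` -/
noncomputable def modi (h θ : ℤ → ℝ) (T : Finset ℤ) (i : ℤ) : ℝ :=
  if i ∈ T then h i + (1 - h i) * θ i else h i

theorem DD_modi (F : Finset ℤ) (h θ : ℤ → ℝ) (h1 : ∀ i, h i ≤ 1)
    (t0 : ∀ i, 0 ≤ θ i) (t1 : ∀ i, θ i ≤ 1) (T : Finset ℤ) (hT : T ⊆ F) :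
    (∏ i ∈ T.filter (fun i => h i ≠ 1), (1 - θ i)) * DD F h ≤ DD F (modi h θ T) := by
  classical
  have hmod1 : ∀ T i, modi h θ T i ≤ 1 := by
    intro T i
    unfold modi
    split_ifs
    · have := h1 i; have := t1 i; have := t0 i
      nlinarith
    · exact h1 i
  induction T using Finset.induction_on with
  | empty =>
    have : modi h θ ∅ = h := by ext i; simp [modi]
    simp [this]
  | insert x T hxT ih =>
    have hxF : x ∈ F := hT (Finset.mem_insert_self x T)
    have hTF : T ⊆ F := fun y hy => hT (Finset.mem_insert_of_mem hy)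
    have ih' := ih hTF
    have hx0 : modi h θ T x = h x := by simp [modi, hxT]
    have hupd : modi h θ (insert x T)
        = Function.update (modi h θ T) x ((1 - θ x) * h x + θ x * 1) := by
      ext i
      by_cases hi : i = x
      · subst hi
        simp [modi]
        ring
      · rw [Function.update_of_ne hi]
        simp [modi, hi]
    have hself : Function.update (modi h θ T) x (h x) = modi h θ T := by
      rw [← hx0, Function.update_eq_self]
    have hnn : 0 ≤ DD F (Function.update (modi h θ T) x 1) := by
      apply DD_nonneg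
      intro i
      by_cases hi : i = x
      · subst hi; simp
      · rw [Function.update_of_ne hi]; exact hmod1 T i
    have hkey : (1 - θ x) * DD F (modi h θ T) ≤ DD F (modi h θ (insert x T)) := by
      rw [hupd, DD_update F _ x hxF, hself]
      have := mul_nonneg (t0 x) hnn
      linarith
    by_cases hx1 : h x = 1
    · have e : (insert x T).filter (fun i => h i ≠ 1) = T.filter (fun i => h i ≠ 1) := by
        rw [Finset.filter_insert]; simp [hx1]
      have e2 : modi h θ (insert x T) = modi h θ T := by
        rw [hupd, hx1]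
        have : (1 - θ x) * 1 + θ x * 1 = h x := by rw [hx1]; ring
        rw [this, hself]
      rw [e, e2]
      exact ih'
    · have e : (insert x T).filter (fun i => h i ≠ 1)
          = insert x (T.filter (fun i => h i ≠ 1)) := by
        rw [Finset.filter_insert]; simp [hx1]
      rw [e, Finset.prod_insert (by simp [hxT]), mul_assoc]
      refine le_trans ?_ hkey
      exact mul_le_mul_of_nonneg_left ih' (by linarith [t1 x])

/-- determinant of the finite section of the half-lattice kernel -/
noncomputable def dK (A : Finset ℤ) : ℝ := (KF A).det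

theorem det_one_add_eq_sum {n : Type*} [Fintype n] [DecidableEq n] (M : Matrix n n ℝ) :
    det (1 + M) = ∑ s : Finset n, (M.submatrix (Subtype.val : s → n) (Subtype.val : s → n)).det := by
  rw [add_comm]
  have h := (detRowAlternating : (n → ℝ) [⋀^n]→ₗ[ℝ] ℝ).toMultilinearMap.map_add_univ
    (fun i => M i) (fun i => (1 : Matrix n n ℝ) i)
  have h' : det (M + 1) = ∑ s : Finset n, det (Matrix.of (s.piecewise M.row
    (1 : Matrix n n ℝ).row)) := h
  rw [h']
  apply Finset.sum_congr rfl
  intro s _
  exact Matrix.det_piecewise_one_eq_submatrix_det M s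

theorem dK_map {n : Type*} [Fintype n] [DecidableEq n] (f : n ↪ ℤ) :
    dK (Finset.univ.map f)
      = Matrix.det (Matrix.of fun i j : n => 1 / 2 * S ((f i : ℝ) / 2 - (f j : ℝ) / 2)) := by
  let e : n ≃ (Finset.univ.map f : Finset ℤ) :=
    (Equiv.subtypeUnivEquiv (fun x => Finset.mem_univ x)).symm.trans (Finset.equivMap f _)
  have he : ∀ i, ((e i : (Finset.univ.map f : Finset ℤ)) : ℤ) = f i := fun i => rfl
  unfold dK
  rw [← Matrix.det_submatrix_equiv_self e]
  congr 1

theorem DD_eq_sum (F : Finset ℤ) (h : ℤ → ℝ) :
    DD F h = ∑ A ∈ F.powerset, (∏ i ∈ A, -h i) * dK A := by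
  classical
  have hpow : F.powerset = (Finset.univ : Finset (Finset F)).map
      ⟨fun s => s.map (Function.Embedding.subtype (fun x => x ∈ F)),
        Finset.map_injective _⟩ := by
    ext A
    simp only [Finset.mem_powerset, Finset.mem_map, Finset.mem_univ, true_and,
      Function.Embedding.coeFn_mk]
    constructor
    · intro hA
      refine ⟨A.subtype (fun x => x ∈ F), ?_⟩
      ext x
      simp only [Finset.mem_map, Finset.mem_subtype, Function.Embedding.subtype_apply,
        Subtype.exists, exists_and_left, exists_prop, exists_eq_right_right]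
      exact ⟨fun h => h.1, fun h => ⟨h, hA h⟩⟩
    · rintro ⟨s, rfl⟩ x hx
      rw [Finset.mem_map] at hx
      obtain ⟨y, _, rfl⟩ := hx
      exact y.2
  rw [hpow, Finset.sum_map]
  unfold DD
  rw [sub_eq_add_neg, det_one_add_eq_sum]
  apply Finset.sum_congr rfl
  intro s _
  simp only [Function.Embedding.coeFn_mk, Finset.prod_map, Function.Embedding.subtype_apply]
  let g : s ↪ ℤ := (Function.Embedding.subtype (fun x => x ∈ s)).trans
    (Function.Embedding.subtype (fun x => x ∈ F))
  have e1 : s.map (Function.Embedding.subtype (fun x => x ∈ F)) = Finset.univ.map g := by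
    ext x
    simp [g]
  rw [e1, dK_map]
  have e2 : ((-(Matrix.diagonal (fun i : F => h i) * KF F)).submatrix
      (Subtype.val : s → F) (Subtype.val : s → F))
      = Matrix.diagonal (fun i : s => -h (i : F)) *
        (Matrix.of fun i j : s => 1 / 2 * S ((g i : ℝ) / 2 - (g j : ℝ) / 2)) := by
    ext i j
    simp only [Matrix.submatrix_apply, Matrix.neg_apply, Matrix.diagonal_mul, KF,
      Matrix.smul_apply, SM, Matrix.of_apply, smul_eq_mul]
    simp [g]
  rw [e2, Matrix.det_mul, Matrix.det_diagonal]
  congr 1
  exact Finset.prod_coe_sort s (fun i : F => -h i)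

end Pool.Agent.Work.MP_dc5c84_pr
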