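import Mathlib
import Pool.Agent.Work.MP_dc5c84_pr.FiniteDet

open MeasureTheory Matrix Filter Topology
open scoped Real

namespace Pool.Agent.Work.MP_dc5c84_pr

theorem dK_nonneg (A : Finset ℤ) : 0 ≤ dK A := (KF_posDef A).det_pos.le

theorem dK_eq (A : Finset ℤ) :
    dK A = (1 / 2 : ℝ) ^ A.card * (SM (fun i : A => ((i : ℤ) : ℝ) / 2)).det := by
  unfold dK KF
  rw [Matrix.det_smul]
  simp

theorem dK_le_one (A : Finset ℤ) : dK A ≤ 1 := by
  rw [dK_eq]
  have h1 := det_SM_le_one (fun i : A => ((i : ℤ) : ℝ) / 2)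
  have h2 := det_SM_nonneg (fun i : A => ((i : ℤ) : ℝ) / 2)
  have h3 : (1 / 2 : ℝ) ^ A.card ≤ 1 := pow_le_one₀ (by norm_num) (by norm_num)
  have h4 : (0 : ℝ) ≤ (1 / 2 : ℝ) ^ A.card := by positivity
  nlinarith

theorem one_sub_sum_le_prod {ι : Type*} (s : Finset ι) (θ : ι → ℝ) (h0 : ∀ i, 0 ≤ θ i)
    (h1 : ∀ i, θ i ≤ 1) : 1 - ∑ i ∈ s, θ i ≤ ∏ i ∈ s, (1 - θ i) := by
  classical
  induction s using Finset.induction_on with
  | empty => simp
  | insert a s ha ih =>
    rw [Finset.sum_insert ha, Finset.prod_insert ha]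
    have hp : ∏ i ∈ s, (1 - θ i) ≤ 1 := Finset.prod_le_one (fun i _ => by linarith [h1 i])
      (fun i _ => by linarith [h0 i])
    nlinarith [h0 a, h1 a]

/-- infinite-volume Fredholm determinant -/
noncomputable def Dinf (h : ℤ → ℝ) : ℝ := ∑' A : Finset ℤ, (∏ i ∈ A, -h i) * dK A

theorem summable_Dinf {h : ℤ → ℝ} (hs : Summable h) :
    Summable (fun A : Finset ℤ => (∏ i ∈ A, -h i) * dK A) := by
  have h1 : Summable (fun A : Finset ℤ => ∏ i ∈ A, ‖h i‖) := by
    apply summable_finsetProd_of_summable_norm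
    simpa using hs.norm
  apply Summable.of_norm_bounded h1
  intro A
  rw [norm_mul, norm_prod]
  simp only [norm_neg]
  rw [Real.norm_of_nonneg (dK_nonneg A)]
  exact mul_le_of_le_one_right (Finset.prod_nonneg fun _ _ => norm_nonneg _) (dK_le_one A)

theorem tendsto_DD {h : ℤ → ℝ} (hs : Summable h) :
    Tendsto (fun F => DD F h) atTop (𝓝 (Dinf h)) := by
  have h1 := (summable_Dinf hs).hasSum
  have h2 := h1.comp tendsto_finset_powerset_atTop_atTop
  refine h2.congr (fun F => ?_)
  simp [DD_eq_sum]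

theorem Dinf_ge {h θ : ℤ → ℝ} (hs : Summable h) (ts : Summable θ) (h0 : ∀ i, 0 ≤ h i)
    (h1 : ∀ i, h i ≤ 1) (t0 : ∀ i, 0 ≤ θ i) (t1 : ∀ i, θ i ≤ 1) (ε : ℝ)
    (hε : ∀ s : Finset ℤ, (∀ i ∈ s, h i ≠ 1) → ∑ i ∈ s, θ i ≤ ε) :
    (1 - ε) * Dinf h ≤ Dinf (fun i => h i + (1 - h i) * θ i) := by
  have hs' : Summable (fun i => h i + (1 - h i) * θ i) := by
    apply hs.add
    apply Summable.of_nonneg_of_le _ _ ts
    · intro i; have := h1 i; have := t0 i; exact mul_nonneg (by linarith) (t0 i)
    · intro i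
      have := h0 i; have := t0 i
      nlinarith
  apply le_of_tendsto_of_tendsto ((tendsto_DD hs).const_mul (1 - ε)) (tendsto_DD hs')
  filter_upwards with F
  have hk := DD_modi F h θ h1 t0 t1 F (le_refl _)
  have e : DD F (modi h θ F) = DD F (fun i => h i + (1 - h i) * θ i) := by
    unfold DD
    congr 4
    ext i
    simp [modi]
  rw [← e]
  refine le_trans ?_ hk
  apply mul_le_mul_of_nonneg_right _ (DD_nonneg F h h1)
  refine le_trans ?_ (one_sub_sum_le_prod _ θ t0 t1)
  have := hε (F.filter (fun i => h i ≠ 1)) (fun i hi => (Finset.mem_filter.mp hi).2)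
  linarith

theorem Dinf_pos {h : ℤ → ℝ} (hs : Summable h) (h0 : ∀ i, 0 ≤ h i)
    (h1 : ∀ i, h i ≤ 1) : 0 < Dinf h := by
  classical
  -- a finite set outside of which the sum is small
  obtain ⟨F0, hF0⟩ : ∃ F0 : Finset ℤ, ∀ t : Finset ℤ, Disjoint t F0 → ∑ i ∈ t, h i ≤ 1 / 2 := by
    have := hs.vanishing (e := Set.Iio (1 / 2 : ℝ)) (Iio_mem_nhds (by norm_num))
    obtain ⟨s, hs⟩ := this
    exact ⟨s, fun t ht => (hs t ht).le⟩
  -- the set where h = 1, inside F0
  set A := F0.filter (fun i => h i = 1) with hA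
  set h1A : ℤ → ℝ := fun i => if i ∈ A then 1 else 0 with hh1A
  have hmem : ∀ i, h i = 1 → i ∈ A := by
    intro i hi
    rw [hA, Finset.mem_filter]
    refine ⟨?_, hi⟩
    by_contra hn
    have := hF0 {i} (by simpa using hn)
    simp [hi] at this
    norm_num at this
  set c : ℝ := (∏ i ∈ F0.filter (fun i => h i ≠ 1), (1 - h i)) * (1 / 2) with hc
  have hcpos : 0 < c := by
    apply mul_pos _ (by norm_num)
    apply Finset.prod_pos
    intro i hi
    have h2 := (Finset.mem_filter.mp hi).2
    have h3 := lt_of_le_of_ne (h1 i) h2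
    linarith
  have hdA : 0 < DD A (fun _ => 1) := by
    have : DD A (fun _ => 1) = (1 - KF A).det := by
      unfold DD; simp
    rw [this]
    exact (one_sub_KF_posDef A).det_pos
  have hlow : ∀ F : Finset ℤ, A ⊆ F → c * DD A (fun _ => 1) ≤ DD F h := by
    intro F hAF
    have hk := DD_modi F h1A h (fun i => by simp only [hh1A]; split_ifs <;> norm_num)
      h0 h1 F (le_refl _)
    have e : DD F (modi h1A h F) = DD F h := by
      unfold DD
      congr 4
      ext i
      simp only [modi, hh1A]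
      rw [if_pos i.2]
      split_ifs with hi
      · have := (Finset.mem_filter.mp hi).2
        simp [this]
      · simp
    have e2 : DD F h1A = DD A (fun _ => 1) := by
      rw [DD_eq_sum, DD_eq_sum]
      rw [← Finset.sum_subset (Finset.powerset_mono.mpr hAF)]
      · apply Finset.sum_congr rfl
        intro B hB
        rw [Finset.mem_powerset] at hB
        congr 1
        apply Finset.prod_congr rfl
        intro i hi
        simp [hh1A, hB hi]
      · intro B _ hB
        rw [Finset.mem_powerset, Finset.not_subset] at hB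
        obtain ⟨i, hiB, hiA⟩ := hB
        rw [Finset.prod_eq_zero hiB]
        · simp
        · simp [hh1A, hiA]
    rw [e, e2] at hk
    refine le_trans ?_ hk
    apply mul_le_mul_of_nonneg_right _ hdA.le
    have hfil : F.filter (fun i => h1A i ≠ 1) = F.filter (fun i => h i ≠ 1) := by
      apply Finset.filter_congr
      intro i _
      simp only [hh1A, ne_eq, ite_eq_left_iff, zero_ne_one, imp_false, not_not]
      constructor
      · intro hn hi; exact hn (hmem i hi)
      · intro hn hi; exact hn (Finset.mem_filter.mp hi).2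
    rw [hfil]
    -- split F into F ∩ F0 and F \ F0
    have hsplit : F.filter (fun i => h i ≠ 1)
        = (F.filter (fun i => h i ≠ 1)).filter (fun i => i ∈ F0) ∪
          (F.filter (fun i => h i ≠ 1)).filter (fun i => i ∉ F0) :=
      (Finset.filter_union_filter_not_eq _ _).symm
    rw [hsplit, Finset.prod_union (Finset.disjoint_filter_filter_not _ _ _)]
    rw [hc]
    apply mul_le_mul
    · apply Finset.prod_le_prod_of_subset_of_le_one
      · intro i hi
        simp only [Finset.mem_filter] at hi ⊢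
        exact ⟨hi.2, hi.1.2⟩
      · intro i _; linarith [h1 i]
      · intro i _ _; linarith [h0 i]
    · refine le_trans ?_ (one_sub_sum_le_prod _ h h0 h1)
      have := hF0 ((F.filter (fun i => h i ≠ 1)).filter (fun i => i ∉ F0)) (by
        rw [Finset.disjoint_left]
        intro i hi
        exact (Finset.mem_filter.mp hi).2)
      linarith
    · norm_num
    · apply Finset.prod_nonneg
      intro i _; linarith [h1 i]
  have hlim : c * DD A (fun _ => 1) ≤ Dinf h := by
    apply ge_of_tendsto (tendsto_DD hs)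
    filter_upwards [Filter.eventually_ge_atTop A] with F hF
    exact hlow F hF
  exact lt_of_lt_of_le (mul_pos hcpos hdA) hlim

end Pool.Agent.Work.MP_dc5c84_pr
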