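import Mathlib

open MeasureTheory Filter Topology
open scoped Real ENNReal

namespace Pool.Agent.Work.MP_dc5c84_pr

/-- pairs (set, enumeration) -> injective tuples -/
def levelMap (n : ℕ) (x : Σ A : {A : Finset ℤ // A.card = n}, (Fin n ≃ (A : Finset ℤ))) :
    Fin n ↪ ℤ :=
  x.2.toEmbedding.trans (Function.Embedding.subtype _)

theorem levelMap_image (n : ℕ) (x : Σ A : {A : Finset ℤ // A.card = n}, (Fin n ≃ (A : Finset ℤ))) :
    Finset.univ.map (levelMap n x) = (x.1 : Finset ℤ) := by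
  ext k
  simp only [Finset.mem_map, Finset.mem_univ, true_and, levelMap, Function.Embedding.trans_apply,
    Equiv.coe_toEmbedding, Function.Embedding.subtype_apply]
  constructor
  · rintro ⟨i, rfl⟩; exact (x.2 i).2
  · intro hk; exact ⟨x.2.symm ⟨k, hk⟩, by simp⟩

theorem levelMap_bij (n : ℕ) : Function.Bijective (levelMap n) := by
  constructor
  · rintro ⟨A, σ⟩ ⟨B, τ⟩ h
    have hAB : A = B := by
      apply Subtype.ext
      have h1 := levelMap_image n ⟨A, σ⟩
      have h2 := levelMap_image n ⟨B, τ⟩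
      rw [h] at h1
      exact h1.symm.trans h2
    subst hAB
    congr 1
    ext i
    have := congrArg (fun f => f i) h
    simpa [levelMap] using this
  · intro e
    have hcard : (Finset.univ.map e).card = n := by simp
    let σ0 : Fin n → (Finset.univ.map e : Finset ℤ) := fun i =>
      ⟨e i, Finset.mem_map_of_mem e (Finset.mem_univ i)⟩
    have hσ : Function.Bijective σ0 := by
      constructor
      · intro i j hij
        exact e.injective (congrArg Subtype.val hij)
      · rintro ⟨k, hk⟩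
        rw [Finset.mem_map] at hk
        obtain ⟨i, _, rfl⟩ := hk
        exact ⟨i, rfl⟩
    refine ⟨⟨⟨Finset.univ.map e, hcard⟩, Equiv.ofBijective σ0 hσ⟩, ?_⟩
    ext i
    rfl

theorem tsum_emb (n : ℕ) (g : Finset ℤ → ℝ≥0∞) :
    ∑' e : Fin n ↪ ℤ, g (Finset.univ.map e)
      = (n.factorial : ℝ≥0∞) * ∑' A : {A : Finset ℤ // A.card = n}, g A := by
  rw [← (Equiv.ofBijective _ (levelMap_bij n)).tsum_eq, ENNReal.tsum_sigma', ← ENNReal.tsum_mul_left]
  apply tsum_congr
  intro A
  have h1 : ∀ σ : Fin n ≃ (A : Finset ℤ),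
      g (Finset.univ.map ((Equiv.ofBijective _ (levelMap_bij n)) ⟨A, σ⟩)) = g A := by
    intro σ
    rw [Equiv.ofBijective_apply, levelMap_image]
  simp_rw [h1]
  rw [tsum_fintype, Finset.sum_const, nsmul_eq_mul]
  congr 1
  rw [Finset.card_univ]
  have : Fintype.card (Fin n ≃ (A : Finset ℤ)) = (Fintype.card (Fin n)).factorial := by
    apply Fintype.card_equiv
    have hc : Fintype.card (Fin n) = Fintype.card (A : Finset ℤ) := by
      simp [A.2]
    exact Fintype.equivOfCardEq hc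
  rw [this]
  simp

theorem tsum_levels_ennreal (g : Finset ℤ → ℝ≥0∞) :
    ∑' A, g A = ∑' n : ℕ, ∑' A : {A : Finset ℤ // A.card = n}, g A := by
  rw [← (Equiv.sigmaFiberEquiv (fun A : Finset ℤ => A.card)).tsum_eq, ENNReal.tsum_sigma']
  rfl

theorem tsum_levels_real (g : Finset ℤ → ℝ) (hg : Summable g) :
    ∑' A, g A = ∑' n : ℕ, ∑' A : {A : Finset ℤ // A.card = n}, g A := by
  rw [← (Equiv.sigmaFiberEquiv (fun A : Finset ℤ => A.card)).tsum_eq]
  have hs : Summable (fun c => g ((Equiv.sigmaFiberEquiv (fun A : Finset ℤ => A.card)) c)) :=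
    (Equiv.sigmaFiberEquiv (fun A : Finset ℤ => A.card)).summable_iff.mpr hg
  rw [hs.tsum_sigma]
  rfl

section
variable {g1 g2 : Finset ℤ → ℝ} (n1 : ∀ A, 0 ≤ g1 A) (n2 : ∀ A, 0 ≤ g2 A)
  (hl : ∀ n, ∑' e : Fin n ↪ ℤ, ENNReal.ofReal (g1 (Finset.univ.map e))
    = ∑' e : Fin n ↪ ℤ, ENNReal.ofReal (g2 (Finset.univ.map e)))
include hl

theorem level_eq (n : ℕ) :
    ∑' A : {A : Finset ℤ // A.card = n}, ENNReal.ofReal (g1 A)
      = ∑' A : {A : Finset ℤ // A.card = n}, ENNReal.ofReal (g2 A) := by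
  have h := hl n
  rw [tsum_emb n (fun A => ENNReal.ofReal (g1 A)), tsum_emb n (fun A => ENNReal.ofReal (g2 A))] at h
  have h0 : (n.factorial : ℝ≥0∞) ≠ 0 := by
    exact_mod_cast n.factorial_ne_zero
  have h1 : (n.factorial : ℝ≥0∞) ≠ ∞ := ENNReal.natCast_ne_top _
  exact (ENNReal.mul_right_inj h0 h1).mp h

theorem total_eq :
    ∑' A : Finset ℤ, ENNReal.ofReal (g1 A) = ∑' A : Finset ℤ, ENNReal.ofReal (g2 A) := by
  rw [tsum_levels_ennreal, tsum_levels_ennreal (fun A => ENNReal.ofReal (g2 A))]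
  exact tsum_congr (level_eq hl)

include n1 n2

omit n2 in
theorem summable_of_levels (s2 : Summable g2) : Summable g1 := by
  have h2 : ∑' A : Finset ℤ, ENNReal.ofReal (g2 A) ≠ ∞ := s2.tsum_ofReal_ne_top
  rw [← total_eq hl] at h2
  have := ENNReal.summable_toReal h2
  simpa [ENNReal.toReal_ofReal, n1] using this

theorem tsum_eq_of_levels (s2 : Summable g2) :
    ∑' A : Finset ℤ, (-1 : ℝ) ^ A.card * g1 A = ∑' A : Finset ℤ, (-1 : ℝ) ^ A.card * g2 A := by
  have s1 := summable_of_levels n1 hl s2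
  have t1 : Summable (fun A : Finset ℤ => (-1 : ℝ) ^ A.card * g1 A) := by
    apply Summable.of_norm_bounded s1
    intro A
    rw [norm_mul]
    simp [abs_of_nonneg (n1 A)]
  have t2 : Summable (fun A : Finset ℤ => (-1 : ℝ) ^ A.card * g2 A) := by
    apply Summable.of_norm_bounded s2
    intro A
    rw [norm_mul]
    simp [abs_of_nonneg (n2 A)]
  rw [tsum_levels_real _ t1, tsum_levels_real _ t2]
  apply tsum_congr
  intro n
  have e1 : ∀ g : Finset ℤ → ℝ, ∑' A : {A : Finset ℤ // A.card = n}, (-1 : ℝ) ^ (A : Finset ℤ).card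
      * g A = (-1) ^ n * ∑' A : {A : Finset ℤ // A.card = n}, g A := by
    intro g
    rw [← tsum_mul_left]
    apply tsum_congr
    intro A
    rw [A.2]
  rw [e1, e1]
  congr 1
  have h := congrArg ENNReal.toReal (level_eq hl n)
  rw [ENNReal.tsum_toReal_eq (fun _ => ENNReal.ofReal_ne_top),
    ENNReal.tsum_toReal_eq (fun _ => ENNReal.ofReal_ne_top)] at h
  simpa [ENNReal.toReal_ofReal, n1, n2] using h

end

end Pool.Agent.Work.MP_dc5c84_pr
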