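import Mathlib

open MeasureTheory FourierTransform SchwartzMap
open scoped Real

namespace Pool.Agent.Work.MP_dc5c84_pr

/-- `f` is a Schwartz function whose Fourier transform vanishes off `[-b,b]`. -/
def BL (b : ℝ) (f : ℝ → ℝ) : Prop :=
  ∃ φ : 𝓢(ℝ, ℂ), (∀ x, φ x = (f x : ℂ)) ∧ ∀ ξ : ℝ, b < |ξ| → 𝓕 φ ξ = 0

theorem BL.mono {b b' : ℝ} {f : ℝ → ℝ} (h : BL b f) (hb : b ≤ b') : BL b' f := by
  obtain ⟨φ, h1, h2⟩ := h
  exact ⟨φ, h1, fun ξ hξ => h2 ξ (lt_of_le_of_lt hb hξ)⟩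

theorem BL.add {b : ℝ} {f g : ℝ → ℝ} (hf : BL b f) (hg : BL b g) :
    BL b (fun x => f x + g x) := by
  obtain ⟨φ, h1, h2⟩ := hf
  obtain ⟨ψ, h3, h4⟩ := hg
  refine ⟨φ + ψ, fun x => by simp [h1, h3], fun ξ hξ => ?_⟩
  rw [FourierTransform.fourier_add]
  simp [h2 ξ hξ, h4 ξ hξ]

theorem BL.neg {b : ℝ} {f : ℝ → ℝ} (hf : BL b f) :
    BL b (fun x => - f x) := by
  obtain ⟨φ, h1, h2⟩ := hf
  refine ⟨(-1 : ℂ) • φ, fun x => by simp [h1], fun ξ hξ => ?_⟩
  rw [FourierTransform.fourier_smul]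
  simp [h2 ξ hξ]

theorem fourierInv_apply_neg (φ : 𝓢(ℝ, ℂ)) (t : ℝ) : 𝓕⁻ φ t = 𝓕 φ (-t) := by
  rw [fourierInv_apply_eq]
  simp

theorem fourier_fourier_apply (φ : 𝓢(ℝ, ℂ)) (t : ℝ) : 𝓕 (𝓕 φ) t = φ (-t) := by
  have h := fourierInv_apply_neg (𝓕 φ) (-t)
  rw [neg_neg] at h
  rw [← h]
  simp

theorem BL.mul {b b' : ℝ} {f g : ℝ → ℝ} (hf : BL b f) (hg : BL b' g) :
    BL (b + b') (fun x => f x * g x) := by
  obtain ⟨φ, h1, h2⟩ := hf
  obtain ⟨ψ, h3, h4⟩ := hg
  set B := ContinuousLinearMap.mul ℂ ℂ with hB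
  refine ⟨pairing B φ ψ, fun x => by simp [hB, h1, h3], fun ξ hξ => ?_⟩
  have key : pairing B φ ψ = 𝓕 (SchwartzMap.convolution B (𝓕⁻ φ) (𝓕⁻ ψ)) := by
    rw [fourier_convolution]; simp
  rw [key, fourier_fourier_apply, convolution_apply]
  unfold MeasureTheory.convolution
  apply integral_eq_zero_of_ae
  filter_upwards with t
  rw [fourierInv_apply_neg, fourierInv_apply_neg]
  by_cases ht : b < |(-t)|
  · rw [h2 _ ht]; simp
  · have : b' < |(-(-ξ - t))| := by
      have e : ξ = (-t) + (-(-ξ - t)) := by ring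
      have := abs_add_le (-t) (-(-ξ - t))
      rw [← e] at this
      push Not at ht
      linarith
    rw [h4 _ this]; simp

theorem BL.translate {b : ℝ} {f : ℝ → ℝ} (hf : BL b f) (a : ℝ) :
    BL b (fun x => f (x - a)) := by
  obtain ⟨φ, h1, h2⟩ := hf
  refine ⟨φ.compSubConstCLM ℂ a, fun x => by simp [h1], fun ξ hξ => ?_⟩
  have h := h2 ξ hξ
  rw [fourier_coe, Real.fourier_real_eq_integral_exp_smul] at h ⊢
  have e : ∫ v : ℝ, Complex.exp (↑(-2 * π * v * ξ) * Complex.I) • (φ.compSubConstCLM ℂ a) v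
      = ∫ v : ℝ, (fun v => Complex.exp (↑(-2 * π * a * ξ) * Complex.I) *
        (Complex.exp (↑(-2 * π * v * ξ) * Complex.I) • φ v)) (v - a) := by
    congr 1
    ext v
    simp only [compSubConstCLM_apply, smul_eq_mul, ← mul_assoc, ← Complex.exp_add]
    congr 2
    push_cast
    ring
  rw [e]
  refine (integral_sub_right_eq_self (fun v => Complex.exp (↑(-2 * π * a * ξ) * Complex.I) *
        (Complex.exp (↑(-2 * π * v * ξ) * Complex.I) • φ v)) a).trans ?_
  rw [integral_const_mul, h, mul_zero]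

theorem BL.union {b b' : ℝ} {f g : ℝ → ℝ} (hb : 0 ≤ b) (hb' : 0 ≤ b')
    (hf : BL b f) (hg : BL b' g) :
    BL (b + b') (fun x => f x + g x - f x * g x) := by
  have h1 := (hf.mono (by linarith : b ≤ b + b')).add (hg.mono (by linarith : b' ≤ b + b'))
  have h2 := (hf.mul hg).neg
  have := h1.add h2
  simpa [sub_eq_add_neg] using this

theorem exists_omega (δ : ℝ) (hδ : 0 < δ) (l : ℝ) (hl : 0 ≤ l) (h6 : δ * l ≤ 1 / 6) :
    ∃ ω : ℝ → ℝ, BL δ ω ∧ (∀ x, |ω x| ≤ 1) ∧ ω 0 = 1 ∧ ∀ x, |x| ≤ l → 1 / 2 ≤ ω x := by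
  let B : ContDiffBump (0 : ℝ) := ⟨δ / 2, δ, by linarith, by linarith⟩
  set g0 : ℝ → ℝ := B.normed volume with hg0
  have hsupp : ∀ t, δ < |t| → g0 t = 0 := by
    intro t ht
    have h := B.support_normed_eq (μ := (volume : Measure ℝ))
    by_contra hne
    have : t ∈ Function.support g0 := hne
    rw [h] at this
    simp only [Metric.mem_ball, dist_zero_right, Real.norm_eq_abs] at this
    have : |t| < δ := this
    linarith
  have hnn : ∀ t, 0 ≤ g0 t := B.nonneg_normed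
  have hint : Integrable g0 := B.integrable_normed
  have hone : ∫ t, g0 t = 1 := B.integral_normed
  have heven : ∀ t, g0 (-t) = g0 t := B.normed_neg
  have hc1 : HasCompactSupport (fun t => (g0 t : ℂ)) :=
    B.hasCompactSupport_normed.comp_left (g := fun x : ℝ => (x : ℂ)) (by simp)
  have hc2 : ContDiff ℝ (⊤ : ℕ∞) (fun t => (g0 t : ℂ)) :=
    Complex.ofRealCLM.contDiff.comp B.contDiff_normed
  let G : 𝓢(ℝ, ℂ) := hc1.toSchwartzMap hc2
  have hG : ∀ t, G t = (g0 t : ℂ) := fun t => rfl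
  have hcosint : ∀ x : ℝ, Integrable (fun t => Real.cos (2 * π * t * x) * g0 t) := by
    intro x
    apply hint.bdd_mul (c := 1) (by fun_prop)
    exact Filter.Eventually.of_forall fun t => by
      rw [Real.norm_eq_abs]; exact Real.abs_cos_le_one _
  have hsinint : ∀ x : ℝ, Integrable (fun t => Real.sin (2 * π * t * x) * g0 t) := by
    intro x
    apply hint.bdd_mul (c := 1) (by fun_prop)
    exact Filter.Eventually.of_forall fun t => by
      rw [Real.norm_eq_abs]; exact Real.abs_sin_le_one _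
  have hF : ∀ x : ℝ, 𝓕 G x = ((∫ t, Real.cos (2 * π * t * x) * g0 t : ℝ) : ℂ) := by
    intro x
    rw [fourier_coe, Real.fourier_real_eq_integral_exp_smul]
    have hs0 : ∫ t, Real.sin (2 * π * t * x) * g0 t = 0 := by
      have h := integral_neg_eq_self (fun t => Real.sin (2 * π * t * x) * g0 t) volume
      have h' : ∫ t, Real.sin (2 * π * (-t) * x) * g0 (-t) =
          - ∫ t, Real.sin (2 * π * t * x) * g0 t := by
        rw [← integral_neg]
        congr 1
        ext t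
        rw [heven]
        rw [show 2 * π * (-t) * x = -(2 * π * t * x) by ring, Real.sin_neg]
        ring
      linarith
    have e : ∀ t : ℝ, Complex.exp (↑(-2 * π * t * x) * Complex.I) • G t
        = ((Real.cos (2 * π * t * x) * g0 t : ℝ) : ℂ)
          - ((Real.sin (2 * π * t * x) * g0 t : ℝ) : ℂ) * Complex.I := by
      intro t
      rw [hG, smul_eq_mul, Complex.exp_mul_I]
      rw [show -2 * π * t * x = -(2 * π * t * x) by ring]
      push_cast
      rw [Complex.cos_neg, Complex.sin_neg]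
      ring
    simp_rw [e]
    rw [integral_sub, integral_mul_const, integral_complex_ofReal, integral_complex_ofReal, hs0]
    · simp
    · exact (hcosint x).ofReal
    · exact (hsinint x).ofReal.mul_const _
  refine ⟨fun x => ∫ t, Real.cos (2 * π * t * x) * g0 t, ⟨𝓕 G, hF, ?_⟩, ?_, ?_, ?_⟩
  · intro ξ hξ
    rw [fourier_fourier_apply, hG, hsupp _ (by rwa [abs_neg])]
    simp
  · intro x
    have h1 : |∫ t, Real.cos (2 * π * t * x) * g0 t| ≤ ∫ t, |Real.cos (2 * π * t * x) * g0 t| :=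
      abs_integral_le_integral_abs
    refine h1.trans ?_
    rw [← hone]
    apply integral_mono (hcosint x).abs hint
    intro t
    simp only [abs_mul, abs_of_nonneg (hnn t)]
    have := Real.abs_cos_le_one (2 * π * t * x)
    nlinarith [hnn t]
  · simp [hone]
  · intro x hx
    have h1 : (1 / 2 : ℝ) = ∫ t, (1 / 2) * g0 t := by rw [integral_const_mul, hone]; norm_num
    rw [h1]
    apply integral_mono (hint.const_mul _) (hcosint x)
    intro t
    by_cases ht : δ < |t|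
    · simp [hsupp t ht]
    · push Not at ht
      have h2 : |2 * π * t * x| ≤ π / 3 := by
        rw [abs_mul, abs_mul, abs_mul, abs_of_pos Real.pi_pos, abs_two]
        have : |t| * |x| ≤ δ * l := mul_le_mul ht hx (abs_nonneg _) hδ.le
        have hpi := Real.pi_pos
        nlinarith
      have h3 : Real.cos (π / 3) ≤ Real.cos (2 * π * t * x) := by
        rw [← Real.cos_abs (2 * π * t * x)]
        apply Real.cos_le_cos_of_nonneg_of_le_pi (abs_nonneg _) _ h2
        linarith [Real.pi_pos]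
      rw [Real.cos_pi_div_three] at h3
      exact mul_le_mul_of_nonneg_right h3 (hnn t)

theorem exists_kappa (b : ℝ) (hb : 0 < b) (l : ℝ) (hl : 0 ≤ l) :
    ∃ κ : ℝ → ℝ, BL b κ ∧ (∀ x, 0 ≤ κ x) ∧ (∀ x, κ x ≤ 1) ∧ κ 0 = 1 ∧
      ∀ x, |x| ≤ l → 1 / 4 ≤ κ x := by
  have hpos : 0 < min (b / 2) (1 / (6 * (l + 1))) := by positivity
  obtain ⟨ω, h1, h2, h3, h4⟩ := exists_omega (min (b / 2) (1 / (6 * (l + 1)))) hpos l hl (by
    have h1 : min (b / 2) (1 / (6 * (l + 1))) * l ≤ 1 / (6 * (l + 1)) * l :=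
      mul_le_mul_of_nonneg_right (min_le_right _ _) hl
    have h2 : 1 / (6 * (l + 1)) * l ≤ 1 / 6 := by
      rw [div_mul_eq_mul_div, div_le_div_iff₀ (by positivity) (by norm_num)]
      linarith
    linarith)
  refine ⟨fun x => ω x * ω x, (h1.mul h1).mono ?_, fun x => mul_self_nonneg _, fun x => ?_,
    by simp [h3], fun x hx => ?_⟩
  · have := min_le_left (b / 2) (1 / (6 * (l + 1)))
    linarith
  · have := h2 x
    rw [abs_le] at this
    nlinarith
  · have := h4 x hx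
    nlinarith

end Pool.Agent.Work.MP_dc5c84_pr
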