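import Mathlib
import Pool.Agent.Work.MP_dc5c84_pr.BandLimited

open MeasureTheory FourierTransform SchwartzMap
open scoped Real

namespace Pool.Agent.Work.MP_dc5c84_pr

theorem schwartz_zero_of_le {ψ : 𝓢(ℝ, ℂ)} {b : ℝ} (h : ∀ ξ : ℝ, b < |ξ| → ψ ξ = 0) (ξ : ℝ)
    (hb : 0 < b) (hξ : b ≤ |ξ|) : ψ ξ = 0 := by
  by_contra hne
  have hc : Continuous (fun x => ψ x) := ψ.continuous
  have ho : IsOpen {x : ℝ | ψ x ≠ 0} := isOpen_ne_fun hc continuous_const
  rw [Metric.isOpen_iff] at ho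
  obtain ⟨ε, hε, hball⟩ := ho ξ hne
  rcases le_or_gt 0 ξ with h0 | h0
  · have hmem : ξ + ε / 2 ∈ Metric.ball ξ ε := by
      rw [Metric.mem_ball, Real.dist_eq]
      rw [show ξ + ε / 2 - ξ = ε / 2 by ring, abs_of_pos (by positivity)]
      linarith
    apply hball hmem
    apply h
    rw [abs_of_nonneg h0] at hξ
    rw [abs_of_pos (by linarith)]
    linarith
  · have hmem : ξ - ε / 2 ∈ Metric.ball ξ ε := by
      rw [Metric.mem_ball, Real.dist_eq]
      rw [show ξ - ε / 2 - ξ = -(ε / 2) by ring, abs_neg, abs_of_pos (by positivity)]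
      linarith
    apply hball hmem
    apply h
    rw [abs_of_neg h0] at hξ
    rw [abs_of_neg (by linarith)]
    linarith

/-- half-integer Poisson summation for functions band-limited to `[-1,1]`. -/
theorem poisson_half {φ : 𝓢(ℝ, ℂ)} (h : ∀ ξ : ℝ, 1 < |ξ| → 𝓕 φ ξ = 0) (s : ℝ) (hs : |s| ≤ 1) :
    ∑' k : ℤ, (1 / 2 : ℂ) * φ (k / 2) * Complex.exp (2 * π * Complex.I * (k / 2) * s)
      = ∫ x : ℝ, φ x * Complex.exp (2 * π * Complex.I * x * s) := by
  set ψ : 𝓢(ℝ, ℂ) := 𝓕 φ with hψ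
  let e2 : ℝ ≃L[ℝ] ℝ := ContinuousLinearEquiv.smulLeft (Units.mk0 (2 : ℝ) two_ne_zero)
  have he2 : ∀ x : ℝ, e2 x = 2 * x := fun x => rfl
  let f : 𝓢(ℝ, ℂ) := compCLMOfContinuousLinearEquiv ℂ e2 ψ
  have hf : ∀ x, f x = ψ (2 * x) := fun x => rfl
  have hp := SchwartzMap.tsum_eq_tsum_fourier f (-s / 2)
  have hL : ∑' n : ℤ, f (-s / 2 + n) = ψ (-s) := by
    rw [tsum_eq_single 0]
    · rw [hf]; congr 1; simp; ring
    · intro m hm
      rw [hf]
      apply schwartz_zero_of_le h _ one_pos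
      have h1 : (1 : ℝ) ≤ |(m : ℝ)| := by
        rw [← Int.cast_abs]
        exact_mod_cast Int.one_le_abs hm
      have h2 : 2 * (-s / 2 + (m : ℝ)) = 2 * (m : ℝ) - s := by ring
      rw [h2]
      have h3 : |2 * (m : ℝ)| ≤ |2 * (m : ℝ) - s| + |s| := by
        have := abs_add_le (2 * (m : ℝ) - s) s
        simpa using this
      rw [abs_mul, abs_two] at h3
      linarith
  have hR : ∀ n : ℤ, 𝓕 f n = (1 / 2 : ℂ) * φ (-(n / 2)) := by
    intro n
    rw [fourier_coe, Real.fourier_real_eq_integral_exp_smul]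
    have e : ∀ v : ℝ, Complex.exp (↑(-2 * π * v * (n : ℝ)) * Complex.I) • f v
        = (fun z : ℝ => Complex.exp (↑(-2 * π * z * ((n : ℝ) / 2)) * Complex.I) • ψ z) (2 * v) := by
      intro v
      simp only [hf]
      congr 3
      push_cast
      ring
    simp_rw [e]
    rw [Measure.integral_comp_mul_left (fun z : ℝ =>
      Complex.exp (↑(-2 * π * z * ((n : ℝ) / 2)) * Complex.I) • ψ z) 2]
    have h4 : 𝓕 ψ ((n : ℝ) / 2) = φ (-((n : ℝ) / 2)) := fourier_fourier_apply φ _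
    rw [fourier_coe, Real.fourier_real_eq_integral_exp_smul] at h4
    rw [h4]
    rw [abs_of_pos (by norm_num)]
    simp
  rw [hL] at hp
  have hI : ∫ x : ℝ, φ x * Complex.exp (2 * π * Complex.I * x * s) = ψ (-s) := by
    rw [hψ, fourier_coe, Real.fourier_real_eq_integral_exp_smul]
    congr 1
    ext x
    rw [smul_eq_mul, mul_comm]
    congr 2
    push_cast
    ring
  rw [hI, hp]
  have hre : ∑' n : ℤ, 𝓕 f n * (fourier n (((-s / 2 : ℝ)) : UnitAddCircle) : ℂ)
      = ∑' k : ℤ, (fun k : ℤ => (1 / 2 : ℂ) * φ (k / 2) *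
          Complex.exp (2 * π * Complex.I * (k / 2) * s)) (-k) := by
    apply tsum_congr
    intro n
    rw [hR, fourier_coe_apply]
    simp only
    congr 2
    · congr 1
      push_cast
      ring
    · push_cast
      ring
  rw [hre]
  exact ((Equiv.neg ℤ).tsum_eq (fun k : ℤ => (1 / 2 : ℂ) * φ (k / 2) *
          Complex.exp (2 * π * Complex.I * (k / 2) * s))).symm

end Pool.Agent.Work.MP_dc5c84_pr
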