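import Mathlib
import Pool.Agent.Work.MP_dc5c84_pr.Fubini
import Pool.Agent.Work.MP_dc5c84_pr.Poisson

open MeasureTheory FourierTransform SchwartzMap
open scoped Real

namespace Pool.Agent.Work.MP_dc5c84_pr

theorem BL.decay {b : ℝ} {f : ℝ → ℝ} (hf : BL b f) :
    ∃ C, 0 ≤ C ∧ ∀ x, |f x| ≤ C / (1 + x ^ 2) := by
  obtain ⟨φ, h1, _⟩ := hf
  obtain ⟨C0, hC0, h0⟩ := φ.decay 0 0
  obtain ⟨C2, hC2, h2⟩ := φ.decay 2 0
  refine ⟨C0 + C2, by positivity, fun x => ?_⟩
  have a0 := h0 x
  have a2 := h2 x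
  simp only [pow_zero, one_mul, norm_iteratedFDeriv_zero, h1] at a0 a2
  rw [Complex.norm_real, Real.norm_eq_abs] at a0 a2
  rw [Real.norm_eq_abs, sq_abs] at a2
  rw [le_div_iff₀ (by positivity)]
  nlinarith

theorem BL.continuous {b : ℝ} {f : ℝ → ℝ} (hf : BL b f) : Continuous f := by
  obtain ⟨φ, h1, _⟩ := hf
  have : f = fun x => (φ x).re := by ext x; simp [h1]
  rw [this]
  exact Complex.continuous_re.comp φ.continuous

theorem BL.integrable {b : ℝ} {f : ℝ → ℝ} (hf : BL b f) : Integrable f := by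
  obtain ⟨φ, h1, _⟩ := hf
  have : f = fun x => (φ x).re := by ext x; simp [h1]
  rw [this]
  exact φ.integrable.re

theorem summable_int_one_div_sq : Summable (fun k : ℤ => 1 / (1 + (k : ℝ) ^ 2)) := by
  have h : Summable (fun k : ℤ => 1 / (k : ℝ) ^ 2) := by
    have := Real.summable_one_div_int_pow (p := 2)
    simpa using this.mpr (by norm_num)
  have h' : Summable (fun k : ℤ => 2 * (1 / (k : ℝ) ^ 2) + (if k = 0 then 1 else 0)) := by
    apply (h.mul_left 2).add
    apply summable_of_hasFiniteSupport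
    apply Set.Finite.subset (Set.finite_singleton 0)
    intro k hk
    by_contra hne
    simp at hne
    simp [hne] at hk
  apply Summable.of_nonneg_of_le (fun k => by positivity) _ h'
  intro k
  by_cases hk : k = 0
  · subst hk; simp
  · have hk' : (0 : ℝ) < (k : ℝ) ^ 2 := by positivity
    simp only [hk, if_false, add_zero]
    rw [mul_one_div, div_le_div_iff₀ (by positivity) hk']
    nlinarith

theorem BL.summable_half {b : ℝ} {f : ℝ → ℝ} (hf : BL b f) :
    Summable (fun k : ℤ => f (k / 2)) := by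
  obtain ⟨C, hC, h⟩ := hf.decay
  apply Summable.of_norm_bounded ((summable_int_one_div_sq).mul_left (4 * C))
  intro k
  rw [Real.norm_eq_abs]
  refine (h _).trans ?_
  rw [mul_one_div, div_le_div_iff₀ (by positivity) (by positivity)]
  nlinarith [sq_nonneg (k : ℝ)]

theorem pi_count (n : ℕ) :
    (Measure.pi fun _ : Fin n => (Measure.count : Measure ℤ)) = Measure.count := by
  apply Measure.ext_of_singleton
  intro k
  rw [Measure.pi_singleton]
  simp

theorem BL.tr_eq {f : ℝ → ℝ} (hf : BL 1 f) (s : ℝ) (hs : |s| ≤ 1) :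
    tr (Measure.count : Measure ℤ) (fun k => (k : ℝ) / 2) (fun k => ((1 / 2 * f (k / 2) : ℝ) : ℂ)) s
      = tr (volume : Measure ℝ) (fun x => x) (fun x => (f x : ℂ)) s := by
  have hsum := hf.summable_half
  obtain ⟨φ, h1, h2⟩ := hf
  have hp := poisson_half h2 s hs
  unfold tr
  rw [integral_countable]
  · simp only [Measure.real, Measure.count_singleton, ENNReal.toReal_one, one_smul]
    rw [← (by simpa [h1] using hp : ∑' k : ℤ, (1 / 2 : ℂ) * φ (k / 2) *
      Complex.exp (2 * π * Complex.I * (k / 2) * s)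
      = ∫ x : ℝ, (f x : ℂ) * Complex.exp (2 * π * Complex.I * x * s))]
    apply tsum_congr
    intro k
    rw [h1]
    push_cast
    ring
  · rw [integrable_count_iff]
    apply Summable.of_norm_bounded hsum.norm
    intro k
    rw [norm_norm, norm_mul]
    have e1 : ‖Complex.exp (2 * π * Complex.I * (((k : ℝ) / 2 : ℝ) : ℂ) * s)‖ = 1 := by
      rw [show 2 * π * Complex.I * (((k : ℝ) / 2 : ℝ) : ℂ) * s
          = ((2 * π * (k / 2) * s : ℝ) : ℂ) * Complex.I by push_cast; ring,
          Complex.norm_exp_ofReal_mul_I]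
    rw [e1, Complex.norm_real, mul_one, norm_mul]
    have : ‖(1 / 2 : ℝ)‖ ≤ 1 := by norm_num
    nlinarith [norm_nonneg (f ((k : ℝ) / 2))]

theorem lattice_integrable (n : ℕ) {f : ℝ → ℝ} (hf : BL 1 f)
    (hsdet : ∀ x : Fin n → ℝ, |sdet x| ≤ 1) :
    Integrable (fun x : Fin n → ℤ => (∏ i, 1 / 2 * f (x i / 2)) *
        sdet (fun i => (x i : ℝ) / 2)) Measure.count := by
  have hsum : Summable (fun k : ℤ => 1 / 2 * f (k / 2)) := hf.summable_half.mul_left _
  have ha : Integrable (fun x : Fin n → ℤ => (∏ i, 1 / 2 * f (x i / 2)))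
      (Measure.pi fun _ : Fin n => (Measure.count : Measure ℤ)) := by
    apply Integrable.fintype_prod (f := fun _ (k : ℤ) => 1 / 2 * f (k / 2))
    intro i
    rw [integrable_count_iff]
    exact hsum.norm
  rw [pi_count] at ha
  apply ha.mul_bdd (c := 1)
  · exact (measurable_of_countable _).aestronglyMeasurable
  · filter_upwards with x
    exact hsdet _

theorem lattice_eq (n : ℕ) {f : ℝ → ℝ} (hf : BL 1 f)
    (hsdet : ∀ x : Fin n → ℝ, |sdet x| ≤ 1) :
    ∫ x : Fin n → ℝ, (∏ i, f (x i)) * sdet x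
      = ∑' k : Fin n → ℤ, (∏ i, 1 / 2 * f (k i / 2)) * sdet (fun i => (k i : ℝ) / 2) := by
  have hsum : Summable (fun k : ℤ => 1 / 2 * f (k / 2)) := hf.summable_half.mul_left _
  have hFint : Integrable (fun k : ℤ => ((1 / 2 * f (k / 2) : ℝ) : ℂ)) Measure.count := by
    rw [integrable_count_iff]
    have := hsum.norm
    simpa using this
  have h1 := fubini_det (μ := (volume : Measure ℝ)) (fun x => x) measurable_id
    (fun x => (f x : ℂ)) hf.integrable.ofReal n
  have h2 := fubini_det (μ := (Measure.count : Measure ℤ)) (fun k => (k : ℝ) / 2)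
    (by fun_prop) (fun k => ((1 / 2 * f (k / 2) : ℝ) : ℂ)) hFint n
  have h3 : ∫ x : Fin n → ℝ, (∏ i, (f (x i) : ℂ)) * (sdet (fun i => x i) : ℂ)
        ∂(Measure.pi fun _ => volume)
      = ∫ x : Fin n → ℤ, (∏ i, ((1 / 2 * f (x i / 2) : ℝ) : ℂ)) *
        (sdet (fun i => (x i : ℝ) / 2) : ℂ) ∂(Measure.pi fun _ => Measure.count) := by
    rw [h1, h2]
    apply Finset.sum_congr rfl
    intro σ _
    congr 1
    apply integral_congr_ae
    have hae : ∀ᵐ t ∂(Measure.pi fun _ : Fin n => nu), ∀ i, |t i| ≤ 1 / 2 := by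
      rw [ae_all_iff]
      intro i
      have hq : Measure.QuasiMeasurePreserving (Function.eval i)
          (Measure.pi fun _ : Fin n => nu) nu := Measure.quasiMeasurePreserving_eval (fun _ => nu) i
      exact hq.ae ae_nu
    filter_upwards [hae] with t ht
    apply Finset.prod_congr rfl
    intro i _
    rw [hf.tr_eq]
    have := abs_sub (t (σ⁻¹ i)) (t i)
    linarith [ht i, ht (σ⁻¹ i)]
  rw [pi_count] at h3
  have hint := lattice_integrable n hf hsdet
  have h4 : ((∫ x : Fin n → ℝ, (∏ i, f (x i)) * sdet x : ℝ) : ℂ)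
      = ((∫ x : Fin n → ℤ, (∏ i, 1 / 2 * f (x i / 2)) *
        sdet (fun i => (x i : ℝ) / 2) ∂Measure.count : ℝ) : ℂ) := by
    rw [← integral_complex_ofReal, ← integral_complex_ofReal]
    push_cast
    push_cast at h3
    exact h3
  have h5 := Complex.ofReal_injective h4
  rw [h5, integral_countable hint]
  simp [Measure.real]

end Pool.Agent.Work.MP_dc5c84_pr
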