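import Mathlib
import Pool.Agent.Work.MP_dc5c84_pr.Defs
import Pool.Agent.Work.MP_dc5c84_pr.Lattice

open MeasureTheory Filter
open scoped ENNReal

namespace Pool.Agent.Work.MP_dc5c84_pr

theorem pow_tsum {ι : Type*} (a : ι → ℝ≥0∞) (n : ℕ) :
    ∑' k : Fin n → ι, ∏ i, a (k i) = (∑' i, a i) ^ n := by
  induction n with
  | zero => simp
  | succ n ih =>
    rw [← (Fin.consEquiv (fun _ : Fin (n + 1) => ι)).tsum_eq, ENNReal.tsum_prod', pow_succ', ← ih,
      ← ENNReal.tsum_mul_right]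
    apply tsum_congr
    intro x
    rw [← ENNReal.tsum_mul_left]
    apply tsum_congr
    intro k
    rw [Fin.prod_univ_succ]
    simp [Fin.consEquiv]

theorem prod_le_sum_pow {n : ℕ} (hn : 1 ≤ n) (x : Fin n → ℝ≥0∞) :
    ∏ i, x i ≤ ∑ i, x i ^ n := by
  have : Nonempty (Fin n) := ⟨⟨0, hn⟩⟩
  obtain ⟨i0, _, hi0⟩ := Finset.exists_max_image Finset.univ x Finset.univ_nonempty
  calc ∏ i, x i ≤ ∏ _i : Fin n, x i0 := Finset.prod_le_prod' (fun i _ => hi0 i (Finset.mem_univ i))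
    _ = x i0 ^ n := by simp
    _ ≤ ∑ i, x i ^ n := Finset.single_le_sum (f := fun i => x i ^ n)
        (fun _ _ => bot_le) (Finset.mem_univ i0)

variable {Ω : Type*} [MeasurableSpace Ω] {P : Measure Ω} {u : Ω → ℤ → ℝ}

theorem measurable_indic (hu : IsPointProcess u) (m : ℝ) (j : ℤ) :
    Measurable (fun ω => Set.indicator {t : ℝ | t ∈ Set.Icc m (m + 1)} (fun _ => (1 : ℝ≥0∞))
      (u ω j)) :=
  (measurable_const.indicator measurableSet_Icc).comp (hu.measurable j)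

omit [MeasurableSpace Ω] in
theorem numPts_eq (m : ℝ) (ω : Ω) : numPts u m ω
    = ∑' j : ℤ, Set.indicator {t : ℝ | t ∈ Set.Icc m (m + 1)} (fun _ => (1 : ℝ≥0∞)) (u ω j) := by
  rw [numPts, ← ENNReal.tsum_set_one, tsum_subtype {j : ℤ | u ω j ∈ Set.Icc m (m + 1)}
    (fun _ => (1 : ℝ≥0∞))]
  apply tsum_congr
  intro j
  simp [Set.indicator_apply]

theorem measurable_numPts (hu : IsPointProcess u) (m : ℝ) : Measurable (numPts u m) := by
  have : numPts u m = fun ω => ∑' j : ℤ, Set.indicator {t : ℝ | t ∈ Set.Icc m (m + 1)}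
      (fun _ => (1 : ℝ≥0∞)) (u ω j) := by
    ext ω; exact numPts_eq m ω
  rw [this]
  exact Measurable.tsum (fun j => measurable_indic hu m j)

theorem tsum_le_numPts {h : ℝ → ℝ} {C : ℝ} (hC : 0 ≤ C) (hd : ∀ x, |h x| ≤ C / (1 + x ^ 2))
    (ω : Ω) : ∑' j : ℤ, ENNReal.ofReal (h (u ω j))
      ≤ ∑' m : ℤ, ENNReal.ofReal (4 * C * (1 / (1 + (m : ℝ) ^ 2))) * numPts u m ω := by
  have h1 : ∀ j : ℤ, ENNReal.ofReal (h (u ω j))
      ≤ ∑' m : ℤ, ENNReal.ofReal (4 * C * (1 / (1 + (m : ℝ) ^ 2))) *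
        Set.indicator {t : ℝ | t ∈ Set.Icc (m : ℝ) (m + 1)} (fun _ => (1 : ℝ≥0∞)) (u ω j) := by
    intro j
    refine le_trans ?_ (ENNReal.le_tsum ⌊u ω j⌋)
    have hmem : u ω j ∈ {t : ℝ | t ∈ Set.Icc (⌊u ω j⌋ : ℝ) (⌊u ω j⌋ + 1)} :=
      ⟨Int.floor_le _, (Int.lt_floor_add_one _).le⟩
    rw [Set.indicator_of_mem hmem, mul_one]
    apply ENNReal.ofReal_le_ofReal
    refine (le_abs_self _).trans ((hd _).trans ?_)
    have hm1 := Int.floor_le (u ω j)
    have hm2 := (Int.lt_floor_add_one (u ω j)).le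
    set m : ℝ := (⌊u ω j⌋ : ℝ)
    set t : ℝ := u ω j
    rw [mul_one_div, div_le_div_iff₀ (by positivity) (by positivity)]
    have hs : (t - m) ^ 2 ≤ 1 := by nlinarith
    have h2 : 1 + m ^ 2 ≤ 4 * (1 + t ^ 2) := by nlinarith [sq_nonneg (t + (t - m))]
    nlinarith
  calc ∑' j : ℤ, ENNReal.ofReal (h (u ω j))
      ≤ ∑' j : ℤ, ∑' m : ℤ, ENNReal.ofReal (4 * C * (1 / (1 + (m : ℝ) ^ 2))) *
        Set.indicator {t : ℝ | t ∈ Set.Icc (m : ℝ) (m + 1)} (fun _ => (1 : ℝ≥0∞)) (u ω j) :=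
        ENNReal.tsum_le_tsum h1
    _ = ∑' m : ℤ, ∑' j : ℤ, ENNReal.ofReal (4 * C * (1 / (1 + (m : ℝ) ^ 2))) *
        Set.indicator {t : ℝ | t ∈ Set.Icc (m : ℝ) (m + 1)} (fun _ => (1 : ℝ≥0∞)) (u ω j) :=
        ENNReal.tsum_comm
    _ = ∑' m : ℤ, ENNReal.ofReal (4 * C * (1 / (1 + (m : ℝ) ^ 2))) * numPts u m ω := by
        apply tsum_congr
        intro m
        rw [ENNReal.tsum_mul_left, numPts_eq]

theorem moment_finite (hu : IsPointProcess u) (hulm : HasULM P u) {h : ℝ → ℝ} {C : ℝ}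
    (hC : 0 ≤ C) (hd : ∀ x, |h x| ≤ C / (1 + x ^ 2)) (n : ℕ) (hn : 1 ≤ n) :
    ∫⁻ ω, (∑' j : ℤ, ENNReal.ofReal (h (u ω j))) ^ n ∂P < ∞ := by
  obtain ⟨K, hK, hKb⟩ := hulm n hn
  set w : ℤ → ℝ≥0∞ := fun m => ENNReal.ofReal (4 * C * (1 / (1 + (m : ℝ) ^ 2))) with hw
  have hW : ∑' m, w m ≠ ∞ := by
    apply Summable.tsum_ofReal_ne_top
    exact summable_int_one_div_sq.mul_left _
  calc ∫⁻ ω, (∑' j : ℤ, ENNReal.ofReal (h (u ω j))) ^ n ∂P
      ≤ ∫⁻ ω, (∑' m : ℤ, w m * numPts u m ω) ^ n ∂P := by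
        apply lintegral_mono
        intro ω
        exact pow_le_pow_left' (tsum_le_numPts hC hd ω) n
    _ = ∫⁻ ω, ∑' k : Fin n → ℤ, ∏ i, (w (k i) * numPts u (k i) ω) ∂P := by
        congr 1
        ext ω
        rw [← pow_tsum (fun m : ℤ => w m * numPts u m ω)]
    _ = ∑' k : Fin n → ℤ, ∫⁻ ω, ∏ i, (w (k i) * numPts u (k i) ω) ∂P := by
        rw [lintegral_tsum]
        intro k
        apply Measurable.aemeasurable
        apply Finset.measurable_prod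
        intro i _
        exact (measurable_numPts hu _).const_mul _
    _ ≤ ∑' k : Fin n → ℤ, (∏ i, w (k i)) * (n * K) := by
        apply ENNReal.tsum_le_tsum
        intro k
        have e : ∀ ω, ∏ i, (w (k i) * numPts u (k i) ω)
            = (∏ i, w (k i)) * ∏ i, numPts u (k i) ω := by
          intro ω; rw [Finset.prod_mul_distrib]
        simp_rw [e]
        have hmeas : ∀ i, Measurable fun ω => numPts u (k i) ω ^ n := fun i =>
          (measurable_numPts hu _).pow_const n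
        rw [lintegral_const_mul _ (Finset.measurable_prod _ (fun i _ => measurable_numPts hu _))]
        gcongr
        calc ∫⁻ ω, ∏ i, numPts u (k i) ω ∂P ≤ ∫⁻ ω, ∑ i, numPts u (k i) ω ^ n ∂P :=
              lintegral_mono (fun ω => prod_le_sum_pow hn _)
          _ = ∑ i, ∫⁻ ω, numPts u (k i) ω ^ n ∂P :=
              lintegral_finsetSum _ (fun i _ => hmeas i)
          _ ≤ ∑ _i : Fin n, K := Finset.sum_le_sum (fun i _ => hKb _)
          _ = n * K := by simp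
    _ = (∑' m, w m) ^ n * (n * K) := by rw [ENNReal.tsum_mul_right, pow_tsum]
    _ < ∞ := by
        apply ENNReal.mul_lt_top (ENNReal.pow_lt_top (lt_top_iff_ne_top.mpr hW))
        exact ENNReal.mul_lt_top (ENNReal.natCast_lt_top n) hK

end Pool.Agent.Work.MP_dc5c84_pr
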