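import Mathlib
import Pool.Agent.Work.MP_dc5c84_pr.BandLimited

open MeasureTheory FourierTransform SchwartzMap
open scoped Real RealInnerProductSpace

namespace Pool.Agent.Work.MP_dc5c84_pr

theorem tensor (n : ℕ) {b : ℝ} {f : ℝ → ℝ} (hf : BL b f) :
    ∃ η : 𝓢(EuclideanSpace ℝ (Fin n), ℂ), (∀ x, η x = ∏ i, (f (x i) : ℂ)) ∧
      ∀ ξ : EuclideanSpace ℝ (Fin n), (∃ i, b < |ξ i|) → 𝓕 η ξ = 0 := by
  obtain ⟨φ, h1, h2⟩ := hf
  set ψ : 𝓢(ℝ, ℂ) := 𝓕 φ with hψ
  set Ψ : EuclideanSpace ℝ (Fin n) → ℂ := fun ξ => ∏ i, ψ (ξ i) with hΨ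
  have hzero : ∀ ξ : EuclideanSpace ℝ (Fin n), (∃ i, b < |ξ i|) → Ψ ξ = 0 := by
    rintro ξ ⟨i, hi⟩
    exact Finset.prod_eq_zero (Finset.mem_univ i) (h2 _ hi)
  have hsm : ContDiff ℝ (⊤ : ℕ∞) Ψ := by
    apply contDiff_prod
    intro i _
    have h1 : ContDiff ℝ (⊤ : ℕ∞) (fun ξ : EuclideanSpace ℝ (Fin n) => ξ i) := by
      fun_prop
    exact (ψ.smooth ⊤).comp h1
  have hK : IsCompact {ξ : EuclideanSpace ℝ (Fin n) | ∀ i, |ξ i| ≤ b} := by
    apply Metric.isCompact_of_isClosed_isBounded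
    · have : {ξ : EuclideanSpace ℝ (Fin n) | ∀ i, |ξ i| ≤ b} = ⋂ i, {ξ | |ξ i| ≤ b} := by
        ext ξ; simp
      rw [this]
      apply isClosed_iInter
      intro i
      apply isClosed_le
      · fun_prop
      · fun_prop
    · rw [isBounded_iff_forall_norm_le]
      refine ⟨Real.sqrt (∑ _i : Fin n, b ^ 2), fun ξ hξ => ?_⟩
      rw [EuclideanSpace.norm_eq]
      apply Real.sqrt_le_sqrt
      apply Finset.sum_le_sum
      intro i _
      rw [Real.norm_eq_abs]
      have := hξ i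
      have h0 := abs_nonneg (ξ i)
      nlinarith
  have hc : HasCompactSupport Ψ := by
    apply HasCompactSupport.intro hK
    intro ξ hξ
    apply hzero
    simpa using hξ
  let G : 𝓢(EuclideanSpace ℝ (Fin n), ℂ) := hc.toSchwartzMap hsm
  have hG : ∀ ξ, G ξ = Ψ ξ := fun _ => rfl
  refine ⟨𝓕⁻ G, fun x => ?_, fun ξ hξ => ?_⟩
  · rw [fourierInv_coe, Real.fourierInv_eq']
    rw [← (PiLp.volume_preserving_toLp (Fin n)).integral_comp
      (MeasurableEquiv.toLp 2 _).measurableEmbedding]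
    have e : ∀ v : Fin n → ℝ,
        Complex.exp (↑(2 * π * ⟪(WithLp.toLp 2 v : EuclideanSpace ℝ (Fin n)), x⟫) * Complex.I)
          • G (WithLp.toLp 2 v)
        = ∏ i, (fun (i : Fin n) (t : ℝ) =>
            Complex.exp (↑(2 * π * (t * x i)) * Complex.I) • ψ t) i (v i) := by
      intro v
      rw [hG, hΨ]
      simp only [smul_eq_mul, Finset.prod_mul_distrib]
      congr 1
      rw [← Complex.exp_sum, PiLp.inner_apply]
      congr 1
      simp only [RCLike.inner_apply, conj_trivial]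
      push_cast
      rw [Finset.mul_sum, Finset.sum_mul]
      apply Finset.sum_congr rfl
      intro i _
      ring
    rw [integral_congr_ae (Filter.Eventually.of_forall e)]
    refine (integral_fintype_prod_volume_eq_prod (f := fun (i : Fin n) (t : ℝ) =>
            Complex.exp (↑(2 * π * (t * x i)) * Complex.I) • ψ t)).trans ?_
    apply Finset.prod_congr rfl
    intro i _
    have h3 : 𝓕⁻ ψ (x i) = φ (x i) := by rw [hψ]; simp
    rw [← h1, ← h3, fourierInv_coe, Real.fourierInv_eq']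
    congr 1
    ext t
    congr 4
    simp
    ring
  · have : 𝓕 (𝓕⁻ G) = G := by simp
    rw [this, hG]
    exact hzero ξ hξ

end Pool.Agent.Work.MP_dc5c84_pr
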