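import Mathlib
import Pool.Agent.Work.MP_dc5c84_pr.Defs
import Pool.Agent.Work.MP_dc5c84_pr.Moments
import Pool.Agent.Work.MP_dc5c84_pr.Tensor
import Pool.Agent.Work.MP_dc5c84_pr.Infinite
import Pool.Agent.Work.MP_dc5c84_pr.Levels

open MeasureTheory Filter Topology
open scoped ENNReal

namespace Pool.Agent.Work.MP_dc5c84_pr

variable {Ω : Type*} [MeasurableSpace Ω] {P : Measure Ω} {u : Ω → ℤ → ℝ}

theorem sineDet_eq {n : ℕ} (x : EuclideanSpace ℝ (Fin n)) : sineDet x = sdet (fun i => x i) := rfl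

theorem continuous_sdet {n : ℕ} : Continuous (fun x : Fin n → ℝ => sdet x) := by
  unfold sdet S
  apply Continuous.matrix_det
  apply continuous_matrix
  intro i j
  simp only [Matrix.of_apply]
  exact Real.continuous_sinc.comp (by fun_prop)

theorem continuous_sineDet {n : ℕ} : Continuous (sineDet : EuclideanSpace ℝ (Fin n) → ℝ) := by
  have : (sineDet : EuclideanSpace ℝ (Fin n) → ℝ) = fun x => sdet (fun i => x i) := rfl
  rw [this]
  exact continuous_sdet.comp (by fun_prop)

theorem measurable_tuple (hu : IsPointProcess u) {n : ℕ} (e : Fin n ↪ ℤ) :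
    Measurable (fun ω => (WithLp.toLp 2 fun i => u ω (e i) : EuclideanSpace ℝ (Fin n))) := by
  apply (MeasurableEquiv.toLp 2 (Fin n → ℝ)).measurable.comp
  exact measurable_pi_lambda _ (fun i => hu.measurable (e i))

theorem lintegral_corr (hu : IsPointProcess u) {n : ℕ} (g : EuclideanSpace ℝ (Fin n) → ℝ≥0∞)
    (hg : Measurable g) :
    ∫⁻ x, g x ∂(corr P u n) = ∑' e : Fin n ↪ ℤ, ∫⁻ ω, g (WithLp.toLp 2 fun i => u ω (e i)) ∂P := by
  unfold corr
  rw [lintegral_sum_measure]
  apply tsum_congr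
  intro e
  rw [lintegral_map hg (measurable_tuple hu e)]

theorem level_process (hT : InT P u 1) {h : ℝ → ℝ} (hh : BL 1 h) (h0 : ∀ x, 0 ≤ h x)
    (n : ℕ) (hn : 1 ≤ n) :
    ∑' e : Fin n ↪ ℤ, ∫⁻ ω, ∏ i, ENNReal.ofReal (h (u ω (e i))) ∂P
      = ENNReal.ofReal (∫ x : Fin n → ℝ, (∏ i, h (x i)) * sdet x) := by
  have hc := hh.continuous
  obtain ⟨C, hC, hd⟩ := hh.decay
  have hfcont : Continuous (fun x : EuclideanSpace ℝ (Fin n) => ∏ i, h (x i)) := by
    apply continuous_finsetProd
    intro i _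
    exact hc.comp (by fun_prop)
  have hlin : ∫⁻ x, ENNReal.ofReal (∏ i, h (x i)) ∂(corr P u n)
      = ∑' e : Fin n ↪ ℤ, ∫⁻ ω, ∏ i, ENNReal.ofReal (h (u ω (e i))) ∂P := by
    rw [lintegral_corr hT.pp _ (hfcont.measurable.ennreal_ofReal)]
    apply tsum_congr
    intro e
    congr 1
    ext ω
    rw [ENNReal.ofReal_prod_of_nonneg (fun i _ => h0 _)]
  have hfin : ∫⁻ x, ENNReal.ofReal (∏ i, h (x i)) ∂(corr P u n) < ∞ := by
    rw [hlin]
    refine lt_of_le_of_lt ?_ (moment_finite hT.pp hT.ulm hC hd n hn)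
    have hmeas : ∀ j, Measurable fun ω => ENNReal.ofReal (h (u ω j)) := fun j =>
      (hc.measurable.comp (hT.pp.measurable j)).ennreal_ofReal
    have hcount : Countable (Fin n ↪ ℤ) :=
      (DFunLike.coe_injective (F := Fin n ↪ ℤ)).countable
    rw [← lintegral_tsum (fun e => (Finset.measurable_prod _
      (fun i _ => hmeas (e i))).aemeasurable)]
    apply lintegral_mono
    intro ω
    simp only
    rw [← pow_tsum (fun j => ENNReal.ofReal (h (u ω j)))]
    exact ENNReal.tsum_comp_le_tsum_of_injective (f := fun e : Fin n ↪ ℤ => (e : Fin n → ℤ))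
      DFunLike.coe_injective (fun k : Fin n → ℤ => ∏ i, ENNReal.ofReal (h (u ω (k i))))
  have hint : Integrable (fun x : EuclideanSpace ℝ (Fin n) => ∏ i, h (x i)) (corr P u n) := by
    refine ⟨hfcont.aestronglyMeasurable, ?_⟩
    rw [hasFiniteIntegral_iff_ofReal]
    · exact hfin
    · filter_upwards with x
      exact Finset.prod_nonneg (fun i _ => h0 _)
  obtain ⟨η, hη1, hη2⟩ := tensor n hh
  have hm := hT.mimic n hn η hη2
  have e1 : ∫ x, η x ∂(corr P u n) = ((∫ x, (∏ i, h (x i)) ∂(corr P u n) : ℝ) : ℂ) := by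
    rw [← integral_complex_ofReal]
    congr 1
    ext x
    rw [hη1]
    push_cast
    rfl
  have e2 : ∫ x, η x ∂(sineCorr n)
      = ((∫ x : Fin n → ℝ, (∏ i, h (x i)) * sdet x : ℝ) : ℂ) := by
    unfold sineCorr
    rw [integral_withDensity_eq_integral_toReal_smul
      (continuous_sineDet.measurable.ennreal_ofReal) (by filter_upwards with x; simp)]
    rw [← integral_complex_ofReal]
    rw [← (PiLp.volume_preserving_toLp (Fin n)).integral_comp
      (MeasurableEquiv.toLp 2 _).measurableEmbedding]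
    congr 1
    ext x
    rw [hη1, ENNReal.toReal_ofReal]
    · rw [sineDet_eq]
      rw [Complex.real_smul]
      push_cast
      ring
    · rw [sineDet_eq]; exact sdet_nonneg _
  rw [e1, e2] at hm
  have hm' := Complex.ofReal_injective hm
  rw [← hlin, ← hm', ofReal_integral_eq_lintegral_ofReal hint]
  filter_upwards with x
  exact Finset.prod_nonneg (fun i _ => h0 _)

theorem dK_map_fin {n : ℕ} (e : Fin n ↪ ℤ) :
    dK (Finset.univ.map e) = (1 / 2 : ℝ) ^ n * sdet (fun i => (e i : ℝ) / 2) := by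
  rw [dK_map]
  have : (Matrix.of fun i j : Fin n => 1 / 2 * S ((e i : ℝ) / 2 - (e j : ℝ) / 2))
      = (1 / 2 : ℝ) • (Matrix.of fun i j : Fin n => S ((e i : ℝ) / 2 - (e j : ℝ) / 2)) := by
    ext i j
    simp
  rw [this, Matrix.det_smul]
  simp [sdet]

theorem level_lattice {h : ℝ → ℝ} (hh : BL 1 h) (h0 : ∀ x, 0 ≤ h x) (n : ℕ) :
    ENNReal.ofReal (∫ x : Fin n → ℝ, (∏ i, h (x i)) * sdet x)
      = ∑' e : Fin n ↪ ℤ, ENNReal.ofReal ((∏ i ∈ Finset.univ.map e, h (i / 2)) *
          dK (Finset.univ.map e)) := by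
  rw [lattice_eq n hh abs_sdet_le]
  have hs : Summable (fun x : Fin n → ℤ => (∏ i, 1 / 2 * h (x i / 2)) *
        sdet (fun i => (x i : ℝ) / 2)) := by
    have := lattice_integrable n hh abs_sdet_le
    rw [integrable_count_iff] at this
    exact this.of_norm
  rw [ENNReal.ofReal_tsum_of_nonneg _ hs]
  · rw [← Function.Injective.tsum_eq (g := fun e : Fin n ↪ ℤ => (e : Fin n → ℤ))
      DFunLike.coe_injective]
    · apply tsum_congr
      intro e
      congr 1
      rw [dK_map_fin, Finset.prod_map, Finset.prod_mul_distrib]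
      simp
      ring
    · intro k hk
      by_contra hne
      apply hk
      have hni : ¬ Function.Injective k := by
        intro hinj
        exact hne ⟨⟨k, hinj⟩, rfl⟩
      rw [Function.Injective] at hni
      push Not at hni
      obtain ⟨a, b, hab, hne'⟩ := hni
      have : sdet (fun i => (k i : ℝ) / 2) = 0 := by
        unfold sdet
        apply Matrix.det_zero_of_row_eq hne'
        ext j
        simp [hab]
      simp [this]
  · intro k
    apply mul_nonneg _ (sdet_nonneg _)
    apply Finset.prod_nonneg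
    intro i _
    have := h0 ((k i : ℝ) / 2)
    positivity

end Pool.Agent.Work.MP_dc5c84_pr
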