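import Mathlib
import Pool.Agent.Work.MP_dc5c84_pr.Process

open MeasureTheory Filter Topology FourierTransform SchwartzMap
open scoped ENNReal

namespace Pool.Agent.Work.MP_dc5c84_pr

section
variable {Ω : Type*} [MeasurableSpace Ω] {P : Measure Ω} {u : Ω → ℤ → ℝ}

theorem ae_summable (hT : InT P u 1) {h : ℝ → ℝ} (hh : BL 1 h) (h0 : ∀ x, 0 ≤ h x) :
    ∀ᵐ ω ∂P, Summable (fun j => h (u ω j)) := by
  obtain ⟨C, hC, hd⟩ := hh.decay
  have hc := hh.continuous
  have hm := moment_finite hT.pp hT.ulm hC hd 1 le_rfl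
  simp only [pow_one] at hm
  have hmeas : ∀ j, Measurable fun ω => ENNReal.ofReal (h (u ω j)) := fun j =>
      (hc.measurable.comp (hT.pp.measurable j)).ennreal_ofReal
  have := ae_lt_top (Measurable.tsum hmeas) hm.ne
  filter_upwards [this] with ω hω
  have h1 := ENNReal.summable_toReal hω.ne
  simpa [ENNReal.toReal_ofReal, h0] using h1

theorem dK_empty : dK ∅ = 1 := by
  unfold dK
  exact Matrix.det_isEmpty

/-- the multiplicative functional `∏ (1 - h(u_j))`, expanded -/
noncomputable def Phi (h : ℝ → ℝ) (c : ℤ → ℝ) : ℝ := ∑' T : Finset ℤ, ∏ j ∈ T, -h (c j)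

theorem functional_eq (hT : InT P u 1) {h : ℝ → ℝ} (hh : BL 1 h) (h0 : ∀ x, 0 ≤ h x)
    (h1 : ∀ x, h x ≤ 1) :
    ∫ ω, Phi h (u ω) ∂P = Dinf (fun k => h (k / 2)) := by
  have hprob := hT.prob
  have hc := hh.continuous
  set g1 : Finset ℤ → ℝ := fun T => ∫ ω, ∏ j ∈ T, h (u ω j) ∂P with hg1
  set g2 : Finset ℤ → ℝ := fun A => (∏ i ∈ A, h ((i : ℝ) / 2)) * dK A with hg2
  have hmeasj : ∀ j, Measurable fun ω => h (u ω j) := fun j =>
    hc.measurable.comp (hT.pp.measurable j)
  have hint : ∀ T : Finset ℤ, Integrable (fun ω => ∏ j ∈ T, h (u ω j)) P := by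
    intro T
    apply Integrable.of_bound (C := 1)
    · exact (Finset.measurable_prod T (fun j _ => hmeasj j)).aestronglyMeasurable
    · filter_upwards with ω
      rw [Real.norm_of_nonneg (Finset.prod_nonneg (fun j _ => h0 _))]
      exact Finset.prod_le_one (fun j _ => h0 _) (fun j _ => h1 _)
  have n1 : ∀ A, 0 ≤ g1 A := fun A => integral_nonneg (fun ω => Finset.prod_nonneg (fun j _ => h0 _))
  have n2 : ∀ A, 0 ≤ g2 A := fun A =>
    mul_nonneg (Finset.prod_nonneg (fun j _ => h0 _)) (dK_nonneg A)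
  have hl : ∀ n, ∑' e : Fin n ↪ ℤ, ENNReal.ofReal (g1 (Finset.univ.map e))
      = ∑' e : Fin n ↪ ℤ, ENNReal.ofReal (g2 (Finset.univ.map e)) := by
    intro n
    rcases Nat.eq_zero_or_pos n with hn | hn
    · subst hn
      apply tsum_congr
      intro e
      have : Finset.univ.map e = (∅ : Finset ℤ) := by simp
      rw [this]
      simp [hg1, hg2, dK_empty]
    · rw [hg2]
      simp only
      rw [← level_lattice hh h0 n, ← level_process hT hh h0 n hn]
      apply tsum_congr
      intro e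
      rw [hg1]
      simp only
      rw [ofReal_integral_eq_lintegral_ofReal (hint _)
        (by filter_upwards with ω; exact Finset.prod_nonneg (fun j _ => h0 _))]
      congr 1
      ext ω
      rw [Finset.prod_map, ENNReal.ofReal_prod_of_nonneg (fun i _ => h0 _)]
  have hsl : Summable (fun k : ℤ => h ((k : ℝ) / 2)) := hh.summable_half
  have s2 : Summable g2 := by
    have := (summable_Dinf hsl).norm
    apply this.congr
    intro A
    rw [hg2]
    simp only
    rw [norm_mul, norm_prod, Real.norm_of_nonneg (dK_nonneg A)]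
    congr 1
    apply Finset.prod_congr rfl
    intro i _
    rw [norm_neg, Real.norm_of_nonneg (h0 _)]
  have s1 := summable_of_levels n1 hl s2
  have hsw := hasSum_integral_of_summable_integral_norm (μ := P)
    (F := fun (T : Finset ℤ) ω => ∏ j ∈ T, -h (u ω j)) (fun T => by
      have : (fun ω => ∏ j ∈ T, -h (u ω j)) = fun ω => (-1 : ℝ) ^ T.card * ∏ j ∈ T, h (u ω j) := by
        ext ω
        rw [Finset.prod_neg]
      rw [this]
      exact (hint T).const_mul _) (by
      apply s1.congr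
      intro T
      rw [hg1]
      simp only
      congr 1
      ext ω
      rw [norm_prod]
      apply Finset.prod_congr rfl
      intro j _
      rw [norm_neg, Real.norm_of_nonneg (h0 _)])
  have hPhi : ∫ ω, Phi h (u ω) ∂P = ∑' T : Finset ℤ, ∫ ω, ∏ j ∈ T, -h (u ω j) ∂P :=
    hsw.tsum_eq.symm
  rw [hPhi]
  have e1 : ∀ T : Finset ℤ, ∫ ω, ∏ j ∈ T, -h (u ω j) ∂P = (-1 : ℝ) ^ T.card * g1 T := by
    intro T
    rw [hg1]
    simp only
    rw [← integral_const_mul]
    congr 1
    ext ω
    rw [Finset.prod_neg]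
  simp_rw [e1]
  rw [tsum_eq_of_levels n1 n2 hl s2]
  unfold Dinf
  apply tsum_congr
  intro A
  rw [hg2]
  simp only
  rw [Finset.prod_neg, mul_assoc]

end

theorem exists_h (F : Finset ℤ) : ∃ h : ℝ → ℝ, BL (1 / 2) h ∧ (∀ x, 0 ≤ h x) ∧ (∀ x, h x ≤ 1) ∧
    ∀ k ∈ F, h ((k : ℝ) / 2) = 1 := by
  classical
  set b : ℝ := 1 / (2 * ((F.card : ℝ) + 1)) with hb
  have hbpos : 0 < b := by positivity
  obtain ⟨κ, k1, k2, k3, k4, _⟩ := exists_kappa b hbpos 0 le_rfl
  have key : ∀ G : Finset ℤ, ∃ h : ℝ → ℝ, BL (G.card * b) h ∧ (∀ x, 0 ≤ h x) ∧ (∀ x, h x ≤ 1) ∧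
      ∀ k ∈ G, h ((k : ℝ) / 2) = 1 := by
    intro G
    induction G using Finset.induction_on with
    | empty =>
      refine ⟨fun _ => 0, ⟨0, fun x => by simp, fun ξ _ => ?_⟩, fun _ => le_rfl,
        fun _ => zero_le_one, fun k hk => by simp at hk⟩
      have : 𝓕 (0 : 𝓢(ℝ, ℂ)) = 0 := map_zero (FourierTransform.fourierCLM ℂ 𝓢(ℝ, ℂ))
      rw [this]; rfl
    | insert a G ha ih =>
      obtain ⟨h, i1, i2, i3, i4⟩ := ih
      refine ⟨fun x => h x + κ (x - a / 2) - h x * κ (x - a / 2), ?_, ?_, ?_, ?_⟩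
      · have := i1.union (by positivity) hbpos.le (k1.translate ((a : ℝ) / 2))
        apply this.mono
        rw [Finset.card_insert_of_notMem ha]
        push_cast
        linarith
      · intro x
        have := i2 x; have := i3 x; have := k2 (x - a / 2); have := k3 (x - a / 2)
        nlinarith
      · intro x
        have := i2 x; have := i3 x; have := k2 (x - a / 2); have := k3 (x - a / 2)
        nlinarith
      · intro k hk
        rw [Finset.mem_insert] at hk
        rcases hk with rfl | hk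
        · simp [k4]
        · simp [i4 k hk]
  obtain ⟨h, i1, i2, i3, i4⟩ := key F
  refine ⟨h, i1.mono ?_, i2, i3, i4⟩
  rw [hb, mul_one_div, div_le_div_iff₀ (by positivity) (by norm_num)]
  linarith

theorem no_bounded_gaps {Ω : Type*} [MeasurableSpace Ω] {P : Measure Ω} {u : Ω → ℤ → ℝ}
    (hT : InT P u 1) (r : ℝ) : ¬ ∀ᵐ ω ∂P, ∀ j : ℤ, |u ω (j + 1) - u ω j| ≤ r := by
  intro hgap
  have hprob := hT.prob
  set l : ℝ := max r 0 with hl
  -- a point in [-l,l]
  have hpt : ∀ᵐ ω ∂P, ∃ j, |u ω j| ≤ l := by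
    filter_upwards [hgap] with ω hω
    obtain ⟨j1, hj1⟩ := ((hT.pp.tendsto_atBot ω).eventually (eventually_le_atBot 0)).exists
    have hbdd : ∃ b : ℤ, ∀ z : ℤ, u ω z ≤ 0 → z ≤ b := by
      obtain ⟨b, hb⟩ := ((hT.pp.tendsto_atTop ω).eventually (eventually_gt_atTop 0)).exists
      refine ⟨b, fun z hz => ?_⟩
      by_contra hlt
      push Not at hlt
      have := hT.pp.monotone ω hlt.le
      linarith
    obtain ⟨j0, hj0, hj0'⟩ := Int.exists_greatest_of_bdd hbdd ⟨j1, hj1⟩
    refine ⟨j0 + 1, ?_⟩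
    have hpos : 0 < u ω (j0 + 1) := by
      by_contra hle
      push Not at hle
      have := hj0' _ hle
      linarith
    have h1 := hω j0
    rw [abs_le] at h1
    rw [abs_of_pos hpos]
    have : r ≤ l := le_max_left _ _
    linarith [h1.2]
  obtain ⟨θ, t1, t2, t3, _, t5⟩ := exists_kappa (1 / 2) (by norm_num) l (le_max_right _ _)
  have tBL : BL 1 θ := t1.mono (by norm_num)
  have tsum : Summable (fun k : ℤ => θ ((k : ℝ) / 2)) := tBL.summable_half
  obtain ⟨F0, hF0⟩ : ∃ F0 : Finset ℤ, ∀ t : Finset ℤ, Disjoint t F0 →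
      ∑ i ∈ t, θ ((i : ℝ) / 2) ≤ 1 / 8 := by
    have := tsum.vanishing (e := Set.Iio (1 / 8 : ℝ)) (Iio_mem_nhds (by norm_num))
    obtain ⟨s, hs⟩ := this
    exact ⟨s, fun t ht => (hs t ht).le⟩
  obtain ⟨h, b1, b2, b3, b4⟩ := exists_h F0
  have hBL : BL 1 h := b1.mono (by norm_num)
  have hsum : Summable (fun k : ℤ => h ((k : ℝ) / 2)) := hBL.summable_half
  set h' : ℝ → ℝ := fun x => h x + θ x - h x * θ x with hh'
  have h'BL : BL 1 h' := by
    have := b1.union (by norm_num) (by norm_num) t1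
    exact this.mono (by norm_num)
  have h'0 : ∀ x, 0 ≤ h' x := by
    intro x
    have := b2 x; have := b3 x; have := t2 x; have := t3 x
    rw [hh']; simp only
    nlinarith
  have h'1 : ∀ x, h' x ≤ 1 := by
    intro x
    have := b2 x; have := b3 x; have := t2 x; have := t3 x
    rw [hh']; simp only
    nlinarith
  have hD : 0 < Dinf (fun k => h ((k : ℝ) / 2)) :=
    Dinf_pos hsum (fun i => b2 _) (fun i => b3 _)
  have hD' := Dinf_ge hsum tsum (fun i => b2 _) (fun i => b3 _) (fun i => t2 _) (fun i => t3 _)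
    (1 / 8) (by
      intro s hs
      apply hF0
      rw [Finset.disjoint_left]
      intro i hi hiF
      exact hs i hi (b4 i hiF))
  have e : (fun i : ℤ => h ((i : ℝ) / 2) + (1 - h ((i : ℝ) / 2)) * θ ((i : ℝ) / 2))
      = fun k : ℤ => h' ((k : ℝ) / 2) := by
    ext i; rw [hh']; simp only; ring
  rw [e] at hD'
  have f1 := functional_eq hT hBL b2 b3
  have f2 := functional_eq hT h'BL h'0 h'1
  have hDpos' : 0 < Dinf (fun k => h' ((k : ℝ) / 2)) := by
    refine lt_of_lt_of_le ?_ hD'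
    positivity
  have int1 : Integrable (fun ω => Phi h (u ω)) P := by
    by_contra hne
    rw [integral_undef hne] at f1
    linarith
  have int2 : Integrable (fun ω => Phi h' (u ω)) P := by
    by_contra hne
    rw [integral_undef hne] at f2
    linarith
  have hle : ∀ᵐ ω ∂P, Phi h' (u ω) ≤ 3 / 4 * Phi h (u ω) := by
    filter_upwards [hpt, ae_summable hT hBL b2, ae_summable hT h'BL h'0] with ω hω hs1 hs2
    obtain ⟨j0, hj0⟩ := hω
    have p1 : HasProd (fun j => 1 + -h (u ω j)) (Phi h (u ω)) := by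
      apply hasProd_one_add_of_hasSum_prod
      apply Summable.hasSum
      apply summable_finsetProd_of_summable_norm
      simpa using hs1.norm
    have p2 : HasProd (fun j => 1 + -h' (u ω j)) (Phi h' (u ω)) := by
      apply hasProd_one_add_of_hasSum_prod
      apply Summable.hasSum
      apply summable_finsetProd_of_summable_norm
      simpa using hs2.norm
    apply le_of_tendsto_of_tendsto p2 (p1.const_mul (3 / 4))
    rw [SummationFilter.unconditional_filter]
    filter_upwards [eventually_ge_atTop ({j0} : Finset ℤ)] with s hs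
    have hj0s : j0 ∈ s := hs (Finset.mem_singleton_self j0)
    have e1 : ∏ j ∈ s, (1 + -h' (u ω j))
        = (∏ j ∈ s, (1 + -h (u ω j))) * ∏ j ∈ s, (1 - θ (u ω j)) := by
      rw [← Finset.prod_mul_distrib]
      apply Finset.prod_congr rfl
      intro j _
      rw [hh']; simp only; ring
    have e2 : ∏ j ∈ s, (1 - θ (u ω j)) ≤ 3 / 4 := by
      rw [← Finset.mul_prod_erase s _ hj0s]
      have a1 : 1 - θ (u ω j0) ≤ 3 / 4 := by linarith [t5 _ hj0]
      have a2 : ∏ j ∈ s.erase j0, (1 - θ (u ω j)) ≤ 1 :=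
        Finset.prod_le_one (fun j _ => by linarith [t3 (u ω j)]) (fun j _ => by linarith [t2 (u ω j)])
      have a3 : 0 ≤ ∏ j ∈ s.erase j0, (1 - θ (u ω j)) :=
        Finset.prod_nonneg (fun j _ => by linarith [t3 (u ω j)])
      have a4 : 0 ≤ 1 - θ (u ω j0) := by linarith [t3 (u ω j0)]
      nlinarith
    have e3 : 0 ≤ ∏ j ∈ s, (1 + -h (u ω j)) :=
      Finset.prod_nonneg (fun j _ => by linarith [b3 (u ω j)])
    rw [e1]
    nlinarith
  have hmono := integral_mono_ae int2 (int1.const_mul (3 / 4)) hle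
  rw [integral_const_mul, f1, f2] at hmono
  linarith

theorem lam_eq_top : lam = ⊤ := by
  unfold lam
  rw [sInf_eq_top]
  rintro l ⟨r, _, Ω, _, P, u, hT, hg⟩
  exact absurd hg (no_bounded_gaps hT r)

end Pool.Agent.Work.MP_dc5c84_pr
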